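import Mathlib

/-! Coefficients of zero free polynomials compared with the reversed polynomial. -/

set_option autoImplicit false

open Finset Real Metric Filter Topology
open scoped ComplexConjugate

namespace Pool.Agent.MP_d3fa2a_an.R

theorem ci {E : Type} [NormedAddCommGroup E] {F : ℂ → E} (h : ∀ z, ‖z‖ ≤ 1 → ContinuousAt F z) :
    CircleIntegrable F 0 1 :=
  ContinuousOn.circleIntegrable zero_le_one fun z hz =>
    (h z (mem_sphere_zero_iff_norm.1 hz).le).continuousWithinAt

theorem mean {G : ℂ → ℂ} (hG : ∀ z, ‖z‖ ≤ 1 → DifferentiableAt ℂ G z) (s : ℕ) :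
    circleAverage (fun z => z ^ s * G z) 0 1 = 0 ^ s * G 0 := by
  refine DiffContOnCl.circleAverage (f := fun z => z ^ s * G z) (DifferentiableOn.diffContOnCl ?_)
  rw [abs_one, closure_ball _ one_ne_zero]
  exact fun z hz => ((differentiableAt_pow s).mul
    (hG z (mem_closedBall_zero_iff.1 hz))).differentiableWithinAt

theorem avg_conj {F : ℂ → ℂ} (h : ∀ z, ‖z‖ ≤ 1 → ContinuousAt F z) :
    circleAverage (fun z => conj (F z)) 0 1 = conj (circleAverage F 0 1) :=
  (Complex.conjCLE : ℂ →L[ℝ] ℂ).circleAverage_comp_comm (ci h)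

theorem avg_re {F : ℂ → ℂ} (h : ∀ z, ‖z‖ ≤ 1 → ContinuousAt F z) :
    circleAverage (fun z => (F z).re) 0 1 = (circleAverage F 0 1).re :=
  Complex.reCLM.circleAverage_comp_comm (ci h)

theorem norm_avg (F : ℂ → ℂ) : ‖circleAverage F 0 1‖ ≤ circleAverage (fun z => ‖F z‖) 0 1 := by
  rw [circleAverage, circleAverage, norm_smul, smul_eq_mul,
    Real.norm_of_nonneg (inv_pos.2 two_pi_pos).le]
  exact mul_le_mul_of_nonneg_left
    (intervalIntegral.norm_integral_le_integral_norm two_pi_pos.le) (inv_pos.2 two_pi_pos).le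

theorem shift (G : ℂ → ℂ) (i s t : ℕ) :
    circleAverage (fun z => conj z ^ (i + s) * z ^ (i + t) * G z) 0 1 =
      circleAverage (fun z => conj z ^ s * z ^ t * G z) 0 1 := by
  refine circleAverage_congr_sphere fun z hz => ?_
  rw [abs_one, mem_sphere_zero_iff_norm] at hz
  have : (conj z * z) ^ i = 1 := by rw [Complex.conj_mul', hz]; simp
  simp only [pow_add]
  rw [mul_pow] at this
  linear_combination (conj z ^ s * z ^ t * G z) * this

theorem car {G : ℂ → ℂ} {δ : ℝ} (hG : ∀ z, ‖z‖ ≤ 1 → DifferentiableAt ℂ G z)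
    (hre : ∀ z, ‖z‖ = 1 → 0 ≤ (G z).re) (h0 : G 0 = δ) (i l : ℕ) :
    ‖circleAverage (fun z => conj z ^ i * z ^ l * G z) 0 1‖ ≤ 2 * δ := by
  have hc : ∀ z, ‖z‖ ≤ 1 → ContinuousAt G z := fun z hz => (hG z hz).continuousAt
  have h1 : circleAverage (fun z => (G z).re) 0 1 = δ := by
    have := mean hG 0
    simp only [pow_zero, one_mul] at this
    rw [avg_re hc, this, h0, Complex.ofReal_re]
  have hδ : 0 ≤ δ := h1 ▸ circleAverage_nonneg_of_nonneg fun z hz => hre z (by simpa using hz)
  rcases le_or_gt i l with h | h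
  · obtain ⟨t, rfl⟩ := Nat.exists_eq_add_of_le h
    have := shift G i 0 t
    simp only [add_zero, pow_zero, one_mul] at this
    rw [this, mean hG, h0, norm_mul, norm_pow, norm_zero, Complex.norm_real,
      Real.norm_of_nonneg hδ]
    exact mul_le_mul_of_nonneg_right ((pow_le_one₀ le_rfl zero_le_one).trans one_le_two) hδ
  · obtain ⟨s, rfl⟩ := Nat.exists_eq_add_of_lt h
    have h2 := shift G l (s + 1) 0
    simp only [add_zero, pow_zero, mul_one] at h2
    have h3 := avg_conj (F := fun z => z ^ (s + 1) * G z) fun z hz => by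
      have := hc z hz
      fun_prop
    rw [mean hG, zero_pow (by omega), zero_mul, map_zero] at h3
    have h4 := circleAverage_fun_add (f₁ := fun z => conj z ^ (s + 1) * G z)
      (f₂ := fun z => conj (z ^ (s + 1) * G z)) (c := 0) (R := 1)
      (ci fun z hz => by have := hc z hz; fun_prop) (ci fun z hz => by have := hc z hz; fun_prop)
    rw [h3, add_zero] at h4
    rw [add_assoc, h2, ← h4]
    refine (norm_avg _).trans (le_of_eq ?_)
    rw [← h1, ← smul_eq_mul, ← circleAverage_fun_smul]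
    refine circleAverage_congr_sphere fun z hz => ?_
    rw [abs_one, mem_sphere_zero_iff_norm] at hz
    simp only [map_mul, map_pow, ← mul_add, Complex.add_conj, norm_mul, norm_pow, Complex.norm_conj,
      hz, one_pow, one_mul, Complex.norm_real, smul_eq_mul]
    rw [Real.norm_of_nonneg (hre z hz), Real.norm_of_nonneg zero_le_two]

theorem extract (i l : ℕ) :
    circleAverage (fun z : ℂ => conj z ^ i * z ^ l) 0 1 = if l = i then 1 else 0 := by
  have a : ∀ i t : ℕ, circleAverage (fun z : ℂ => conj z ^ i * z ^ (i + t)) 0 1 = 0 ^ t := by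
    intro i t
    have h1 := shift (fun _ => 1) i 0 t
    have h2 := mean (G := fun _ => 1) (fun _ _ => differentiableAt_const _) t
    simp only [add_zero, pow_zero, one_mul, mul_one] at h1 h2
    rw [h1, h2]
  rcases lt_trichotomy i l with h | rfl | h
  · obtain ⟨t, rfl⟩ := Nat.exists_eq_add_of_lt h
    rw [add_assoc, a, if_neg (by omega), zero_pow (by omega)]
  · simpa using a i 0
  · obtain ⟨t, rfl⟩ := Nat.exists_eq_add_of_lt h
    have h3 := avg_conj (F := fun z => conj z ^ l * z ^ (l + (t + 1))) fun z _ => by fun_prop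
    rw [a, zero_pow (by omega), map_zero] at h3
    rw [if_neg (by omega), add_assoc]
    refine Eq.trans ?_ h3
    simp only [map_mul, map_pow, Complex.conj_conj, mul_comm]

theorem rev_le {m : ℕ} {b : ℕ → ℝ} (h0 : b 0 = 1)
    (hf : ∀ z : ℂ, ‖z‖ < 1 → ∑ i ∈ range (m + 1), (b i : ℂ) * z ^ i ≠ 0) {z : ℂ} (hz : ‖z‖ < 1) :
    ‖∑ i ∈ range (m + 1), (b (m - i) : ℂ) * z ^ i‖ ≤ ‖∑ i ∈ range (m + 1), (b i : ℂ) * z ^ i‖ := by
  set P : Polynomial ℂ := ∑ i ∈ range (m + 1), Polynomial.monomial i (b (m - i) : ℂ) with hP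
  have hd : P.natDegree ≤ m := Polynomial.natDegree_sum_le_of_forall_le _ _ fun i hi =>
    (Polynomial.natDegree_monomial_le _).trans (Nat.lt_succ_iff.1 (mem_range.1 hi))
  have hc : P.coeff m = 1 := by
    simp [hP, Polynomial.coeff_monomial, h0]
  have hm := Polynomial.monic_of_natDegree_le_of_coeff_eq_one m hd hc
  have hcard : P.roots.card = m := by
    rw [IsAlgClosed.card_roots_eq_natDegree]
    exact le_antisymm hd (Polynomial.le_natDegree_of_ne_zero (hc ▸ one_ne_zero))
  have he : ∀ z : ℂ, ∑ i ∈ range (m + 1), (b (m - i) : ℂ) * z ^ i =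
      (P.roots.map fun η => z - η).prod := fun z => by
    rw [← (IsAlgClosed.splits P).eval_eq_prod_roots_of_monic hm, hP, Polynomial.eval_finsetSum]
    simp only [Polynomial.eval_monomial]
  have hr : ∀ z : ℂ, ∑ i ∈ range (m + 1), (b i : ℂ) * z ^ i =
      (P.roots.map fun η => 1 - η * z).prod := fun z => by
    rcases eq_or_ne z 0 with rfl | h
    · simp [sum_range_succ', h0]
    · have e : (P.roots.map fun η => 1 - η * z) = P.roots.map fun η => z * (z⁻¹ - η) :=
        Multiset.map_congr rfl fun η _ => by field_simp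
      rw [e, Multiset.prod_map_mul, ← he, Multiset.map_const', Multiset.prod_replicate, hcard,
        mul_sum, ← sum_range_reflect]
      refine sum_congr rfl fun i hi => ?_
      obtain ⟨j, rfl⟩ := Nat.exists_eq_add_of_le (Nat.lt_succ_iff.1 (mem_range.1 hi))
      simp only [add_tsub_cancel_right, add_tsub_cancel_left, pow_add, inv_pow]
      field_simp
  have hη : ∀ η ∈ P.roots, ‖η‖ ≤ 1 := fun η hη => by
    by_contra h
    have h' := not_le.1 h
    have h1 : η ≠ 0 := norm_pos_iff.1 (zero_lt_one.trans h')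
    refine hf η⁻¹ (by rw [norm_inv]; exact inv_lt_one_of_one_lt₀ h') ?_
    rw [hr]
    exact Multiset.prod_eq_zero (Multiset.mem_map.2 ⟨η, hη, by field_simp; ring⟩)
  have hcj : ‖∑ i ∈ range (m + 1), (b i : ℂ) * z ^ i‖ =
      ‖∑ i ∈ range (m + 1), (b i : ℂ) * conj z ^ i‖ := by
    rw [← Complex.norm_conj, map_sum]
    simp only [map_mul, map_pow, Complex.conj_ofReal]
  rw [hcj, he, hr]
  generalize P.roots = R at hη
  induction R using Multiset.induction_on with
  | empty => simp
  | cons η R ih =>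
    simp only [Multiset.map_cons, Multiset.prod_cons, norm_mul]
    refine mul_le_mul ?_ (ih fun x hx => hη x (Multiset.mem_cons_of_mem hx)) (norm_nonneg _)
      (norm_nonneg _)
    have h1 := hη η (Multiset.mem_cons_self _ _)
    have h2 : ‖η‖ ^ 2 ≤ 1 := pow_le_one₀ (norm_nonneg _) h1
    have h3 : ‖z‖ ^ 2 ≤ 1 := pow_le_one₀ (norm_nonneg _) hz.le
    refine le_of_sq_le_sq ?_ (norm_nonneg _)
    have h4 := mul_nonneg (sub_nonneg.2 h2) (sub_nonneg.2 h3)
    simp only [Complex.sq_norm, Complex.normSq_apply] at h4 ⊢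
    simp
    nlinarith

theorem coeff_rev {m : ℕ} {b : ℕ → ℝ} (h0 : b 0 = 1)
    (hf : ∀ z : ℂ, ‖z‖ < 1 → ∑ i ∈ range (m + 1), (b i : ℂ) * z ^ i ≠ 0) :
    |b m| ≤ 1 ∧ ∀ i ≤ m, |b i - b (m - i)| ≤ 2 * (1 - b m) * ∑ l ∈ range (m + 1), |b l| := by
  have h1 : |b m| ≤ 1 := by
    simpa [sum_range_succ', h0] using rev_le h0 hf (z := 0) (by simp)
  refine ⟨h1, fun i hi => ?_⟩
  have key : ∀ r : ℝ, 0 < r → r < 1 →
      |b i - b (m - i)| * r ^ i ≤ 2 * (1 - b m) * ∑ l ∈ range (m + 1), |b l| := by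
    intro r r0 r1
    have hn : ∀ z : ℂ, ‖z‖ ≤ 1 → ‖r * z‖ < 1 := fun z hz => by
      rw [norm_mul, Complex.norm_real, Real.norm_of_nonneg r0.le]
      exact (mul_le_of_le_one_right r0.le hz).trans_lt r1
    set G : ℂ → ℂ := fun z => 1 - (∑ i ∈ range (m + 1), (b (m - i) : ℂ) * (r * z) ^ i) /
      ∑ i ∈ range (m + 1), (b i : ℂ) * (r * z) ^ i with hG
    have hd : ∀ z, ‖z‖ ≤ 1 → DifferentiableAt ℂ G z := fun z hz =>
      (differentiableAt_const _).sub (DifferentiableAt.div (by fun_prop) (by fun_prop)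
        (hf _ (hn z hz)))
    have hc := car (δ := 1 - b m) hd (fun z hz => by
      have h2 := rev_le h0 hf (hn z hz.le)
      rw [← div_le_one (norm_pos_iff.2 (hf _ (hn z hz.le))), ← norm_div] at h2
      simpa [hG] using (Complex.re_le_norm _).trans h2) (by simp [hG, sum_range_succ', h0]) i
    have e1 : circleAverage (fun z => ∑ l ∈ range (m + 1),
        (((b l - b (m - l)) * r ^ l : ℝ) : ℂ) • (conj z ^ i * z ^ l)) 0 1 =
        (((b i - b (m - i)) * r ^ i : ℝ) : ℂ) := by
      rw [circleAverage_fun_sum fun l _ => ci fun z _ => by fun_prop]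
      simp only [circleAverage_fun_smul, extract]
      simp only [smul_eq_mul, mul_ite, mul_one, mul_zero,
        sum_ite_eq', mem_range, Nat.lt_succ_of_le hi, if_true]
    have e2 : circleAverage (fun z => ∑ l ∈ range (m + 1),
        (((b l - b (m - l)) * r ^ l : ℝ) : ℂ) • (conj z ^ i * z ^ l)) 0 1 =
        ∑ l ∈ range (m + 1), ((b l * r ^ l : ℝ) : ℂ) •
          circleAverage (fun z => conj z ^ i * z ^ l * G z) 0 1 := by
      simp only [← circleAverage_fun_smul]
      rw [← circleAverage_fun_sum fun l _ => ci fun z hz => by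
        have := (hd z hz).continuousAt
        fun_prop]
      refine circleAverage_congr_sphere fun z hz => ?_
      rw [abs_one, mem_sphere_zero_iff_norm] at hz
      have h2 := hf _ (hn z hz.le)
      have h3 : (∑ i ∈ range (m + 1), (b i : ℂ) * (r * z) ^ i) * G z =
          ∑ i ∈ range (m + 1), (b i : ℂ) * (r * z) ^ i -
            ∑ i ∈ range (m + 1), (b (m - i) : ℂ) * (r * z) ^ i := by
        simp only [hG]
        field_simp
      rw [sum_mul, ← sum_sub_distrib] at h3
      have h4 := congrArg (conj z ^ i * ·) h3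
      simp only [mul_sum] at h4
      simp only [smul_eq_mul]
      refine Eq.trans (sum_congr rfl fun l _ => ?_) (h4.symm.trans (sum_congr rfl fun l _ => ?_)) <;>
        push_cast <;> ring
    rw [← abs_of_pos (pow_pos r0 i), ← abs_mul, ← Real.norm_eq_abs, ← Complex.norm_real, ← e1, e2,
      mul_sum]
    refine norm_sum_le_of_le _ fun l _ => ?_
    rw [norm_smul, mul_comm, Complex.norm_real, Real.norm_eq_abs, abs_mul, abs_of_pos (pow_pos r0 l)]
    exact mul_le_mul (hc l) (mul_le_of_le_one_right (abs_nonneg _) (pow_le_one₀ r0.le r1.le))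
      (by positivity) (by linarith [le_abs_self (b m)])
  have ht : Tendsto (fun r : ℝ => |b i - b (m - i)| * r ^ i) (𝓝[<] 1)
      (𝓝 (|b i - b (m - i)| * 1 ^ i)) :=
    (Continuous.tendsto (by fun_prop) _).mono_left nhdsWithin_le_nhds
  rw [one_pow, mul_one] at ht
  refine le_of_tendsto ht ?_
  filter_upwards [Ioo_mem_nhdsLT (zero_lt_one' ℝ)] with r hr using key r hr.1 hr.2

end Pool.Agent.MP_d3fa2a_an.R
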