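import Pool.Agent.MP_d3fa2a_an.R.Wt

/-! Estimates on the unit circle near the point `1`. -/

set_option autoImplicit false

open Finset Real
open scoped ComplexConjugate

namespace Pool.Agent.MP_d3fa2a_an.R

theorem bil (n : ℕ) (b c : ℕ → ℝ) (t : ℝ) :
    |(conj (P n b (Complex.exp (t * Complex.I))) * P n c (Complex.exp (t * Complex.I))).re -
      (∑ k ∈ Icc 1 n, b k) * ∑ k ∈ Icc 1 n, c k| ≤
      (∑ k ∈ Icc 1 n, |b k|) * (∑ k ∈ Icc 1 n, |c k|) * (n ^ 2 * t ^ 2 / 2) := by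
  rw [conj_P, P, P, sum_mul_sum, sum_mul_sum, sum_mul_sum, Complex.re_sum, ← sum_sub_distrib,
    sum_mul]
  refine (abs_sum_le_sum_abs _ _).trans (sum_le_sum fun k hk => ?_)
  rw [Complex.re_sum, ← sum_sub_distrib, sum_mul]
  refine (abs_sum_le_sum_abs _ _).trans (sum_le_sum fun l hl => ?_)
  have e : (b k : ℂ) * conj (Complex.exp (t * Complex.I)) ^ k *
      (c l * Complex.exp (t * Complex.I) ^ l) =
      (b k * c l : ℝ) * Complex.exp (((l - k) * t : ℝ) * Complex.I) := by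
    rw [← Complex.exp_conj, ← Complex.exp_nat_mul, ← Complex.exp_nat_mul, mul_mul_mul_comm,
      ← Complex.exp_add, map_mul, Complex.conj_ofReal, Complex.conj_I]
    push_cast
    ring_nf
  rw [e, Complex.re_ofReal_mul, Complex.exp_ofReal_mul_I_re, ← mul_sub_one, abs_mul, abs_mul]
  refine mul_le_mul_of_nonneg_left ?_ (by positivity)
  rw [mem_Icc] at hk hl
  have k1 : (k : ℝ) ≤ n := by exact_mod_cast hk.2
  have l1 : (l : ℝ) ≤ n := by exact_mod_cast hl.2
  have k0 : (0 : ℝ) ≤ k := k.cast_nonneg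
  have l0 : (0 : ℝ) ≤ l := l.cast_nonneg
  have h : ((l : ℝ) - k) ^ 2 ≤ n ^ 2 := sq_le_sq' (by linarith) (by linarith)
  rw [abs_of_nonpos (sub_nonpos.2 (cos_le_one _))]
  nlinarith [one_sub_sq_div_two_le_cos (x := (l - k) * t), mul_le_mul_of_nonneg_right h (sq_nonneg t)]

theorem norm_add_sq' (u v : ℂ) : ‖u + v‖ ^ 2 = ‖u‖ ^ 2 + 2 * (conj u * v).re + ‖v‖ ^ 2 := by
  simp only [Complex.sq_norm, Complex.normSq_apply]
  simp
  ring

theorem sq_eq_re (v : ℂ) : ‖v‖ ^ 2 = (conj v * v).re := by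
  rw [Complex.conj_mul']
  norm_cast

theorem geom {m : ℕ} {t : ℝ} (ht : |t| ≤ π) :
    ‖∑ i ∈ range (m + m), Complex.exp (t * Complex.I) ^ i‖ ≤
      2 * m - m * min (m ^ 2 * t ^ 2 / π ^ 2) 1 := by
  have m0 : (0 : ℝ) ≤ m := m.cast_nonneg
  have hn := Complex.norm_exp_ofReal_mul_I
  rcases le_total (m * |t|) π with h | h
  · have h1 : ‖∑ i ∈ range m, Complex.exp (t * Complex.I) ^ i‖ ≤ m :=
      (norm_sum_le_of_le _ (n := fun _ => 1) fun i _ => by simp [hn]).trans (by simp)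
    have h2 : |m * t| ≤ π := by rwa [abs_mul, abs_of_nonneg m0]
    have h3 : (m * t) ^ 2 / π ^ 2 ≤ 1 := by
      rw [div_le_one (by positivity), sq_le_sq, abs_of_pos pi_pos]
      exact h2
    have h4 : ‖1 + Complex.exp ((m * t : ℝ) * Complex.I)‖ ≤ 2 - (m * t) ^ 2 / π ^ 2 := by
      refine le_of_sq_le_sq ?_ (by linarith)
      have := cos_le_one_sub_mul_cos_sq h2
      rw [norm_add_sq', hn, map_one, one_mul, Complex.exp_ofReal_mul_I_re, norm_one]
      rw [div_mul_eq_mul_div, mul_div_assoc] at this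
      nlinarith [sq_nonneg ((m * t) ^ 2 / π ^ 2)]
    rw [sum_range_add, sum_congr rfl fun i _ => pow_add _ m i, ← mul_sum, ← one_add_mul, norm_mul,
      ← Complex.exp_nat_mul, ← mul_assoc, ← Complex.ofReal_natCast m, ← Complex.ofReal_mul]
    refine (mul_le_mul h4 h1 (norm_nonneg _) (by linarith)).trans ?_
    rw [mul_pow]
    nlinarith [mul_le_mul_of_nonneg_left (min_le_left (m ^ 2 * t ^ 2 / π ^ 2) 1) m0]
  · have h1 : 2 * |t| / π ≤ ‖-1 + Complex.exp (t * Complex.I)‖ := by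
      refine le_of_sq_le_sq ?_ (norm_nonneg _)
      have := cos_le_one_sub_mul_cos_sq ht
      rw [norm_add_sq', hn, map_neg, map_one, neg_one_mul, Complex.neg_re,
        Complex.exp_ofReal_mul_I_re, norm_neg, norm_one, div_pow, mul_pow, sq_abs, mul_div_assoc]
      rw [div_mul_eq_mul_div, mul_div_assoc] at this
      linarith
    have h2 := congrArg norm (geom_sum_mul (Complex.exp (t * Complex.I)) (m + m))
    have h3 : ‖Complex.exp (t * Complex.I) ^ (m + m) - 1‖ ≤ 2 :=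
      (norm_sub_le _ _).trans (by rw [norm_pow, hn, one_pow, norm_one]; norm_num)
    rw [norm_mul, sub_eq_neg_add] at h2
    rw [← h2] at h3
    have h4 := (mul_le_mul_of_nonneg_left h1 (norm_nonneg _)).trans h3
    rw [← mul_div_assoc, div_le_iff₀ pi_pos] at h4
    have t0 : 0 < |t| := pos_of_mul_pos_right (pi_pos.trans_le h) m0
    have h5 : ‖∑ i ∈ range (m + m), Complex.exp (t * Complex.I) ^ i‖ ≤ m :=
      le_of_mul_le_mul_right (by linarith) t0
    nlinarith [mul_le_mul_of_nonneg_left (min_le_right (m ^ 2 * t ^ 2 / π ^ 2) 1) m0]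

theorem decay {n : ℕ} (hn : 2 ≤ n) {t : ℝ} (ht : |t| ≤ π) :
    ‖P n (A n) (Complex.exp (t * Complex.I))‖ ≤
      (1 - min (n ^ 2 * t ^ 2) 1 / 20000) * ∑ k ∈ Icc 1 n, A n k := by
  have s1 := sn_pos (N := n + 1) le_rfl (by omega)
  have n0 : (0 : ℝ) < n := by exact_mod_cast (by omega)
  have hM := sum_sg_le (n := n) (by omega)
  have hz := Complex.norm_exp_ofReal_mul_I t
  obtain ⟨b, m, h1, h2, h3⟩ : ∃ b m : ℕ, n + 1 ≤ 4 * b ∧ 4 * (b + (m + m)) ≤ 3 * (n + 1) + 4 ∧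
      n + 1 ≤ 8 * m := by
    refine ⟨(n + 4) / 4, (n + 8) / 8, by omega, ?_, by omega⟩
    rcases le_or_gt n 7 with h | h
    · have : (n + 8) / 8 = 1 := by omega
      omega
    · omega
  have hg := geom (m := m) ht
  set z := Complex.exp (t * Complex.I)
  have hs : Ico b (b + (m + m)) ⊆ Icc 1 n := fun k hk => by
    rw [mem_Ico] at hk
    exact mem_Icc.2 (by omega)
  set c := 7 / 40 / sn (n + 1) 1 with hc
  have c0 : 0 < c := by positivity
  have hA : ∀ k ∈ Ico b (b + (m + m)), c ≤ A n k := fun k hk => by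
    rw [mem_Ico] at hk
    have k1 : ((n + 1 : ℕ) : ℝ) ≤ 4 * k := by exact_mod_cast (by omega)
    have k2 : (4 * k : ℝ) ≤ 3 * (n + 1 : ℕ) := by exact_mod_cast (by omega)
    have s2 := sn_mid (k := k) (x := 1 / 4) n.succ_pos (by norm_num) (by linarith) (by linarith)
    rw [one_div_mul_eq_div, sin_pi_div_four] at s2
    have s3 : 7 / 5 ≤ √2 := le_sqrt_of_sq_le (by norm_num)
    have s4 : 1 / 4 ≤ ((n : ℝ) + 1 - k) / n := by
      rw [le_div_iff₀ n0]
      push_cast at k2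
      linarith
    rw [A, sg, ← mul_div_assoc]
    refine div_le_div_of_nonneg_right ?_ s1.le
    nlinarith [mul_le_mul s4 s2 (by positivity) (by linarith)]
  have e : P n (A n) z = ∑ k ∈ Icc 1 n \ Ico b (b + (m + m)), (A n k : ℂ) * z ^ k +
      ∑ k ∈ Ico b (b + (m + m)), ((A n k - c : ℝ) : ℂ) * z ^ k +
      c * z ^ b * ∑ i ∈ range (m + m), z ^ i := by
    have : ∑ k ∈ Ico b (b + (m + m)), (c : ℂ) * z ^ k = c * z ^ b * ∑ i ∈ range (m + m), z ^ i := by
      rw [sum_Ico_eq_sum_range, add_tsub_cancel_left, mul_sum]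
      simp only [pow_add, mul_assoc]
    rw [P, ← sum_sdiff hs, ← this, add_assoc, ← sum_add_distrib]
    simp only [Complex.ofReal_sub, sub_mul, sub_add_cancel]
  have n1 : ∀ (s : Finset ℕ) (f : ℕ → ℝ), (∀ k ∈ s, 0 ≤ f k) →
      ‖∑ k ∈ s, (f k : ℂ) * z ^ k‖ ≤ ∑ k ∈ s, f k := fun s f hf =>
    norm_sum_le_of_le _ fun k hk => by
      rw [norm_mul, norm_pow, hz, one_pow, mul_one, Complex.norm_real, Real.norm_of_nonneg (hf k hk)]
  have h4 := norm_add₃_le.trans (add_le_add_three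
    (n1 (Icc 1 n \ Ico b (b + (m + m))) (A n) fun k hk => (A_pos (mem_sdiff.1 hk).1).le)
    (n1 _ (fun k => A n k - c) fun k hk => sub_nonneg.2 (hA k hk))
    (le_refl ‖c * z ^ b * ∑ i ∈ range (m + m), z ^ i‖))
  rw [← e, sum_sub_distrib, ← add_sub_assoc, sum_sdiff hs, sum_const, Nat.card_Ico,
    add_tsub_cancel_left, nsmul_eq_mul, norm_mul, norm_mul, norm_pow, hz, one_pow, mul_one,
    Complex.norm_real, Real.norm_of_nonneg c0.le, Nat.cast_add] at h4
  have m1 : (n : ℝ) + 1 ≤ 8 * m := by exact_mod_cast h3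
  have h5 : 7 / 160 * ∑ k ∈ Icc 1 n, A n k ≤ c * m := by
    rw [hc, div_mul_eq_mul_div _ (sn _ _), le_div_iff₀ s1]
    linarith
  have h6 : min (n ^ 2 * t ^ 2) 1 / 640 ≤ min (m ^ 2 * t ^ 2 / π ^ 2) 1 := by
    refine le_min ?_ (by linarith [min_le_right (n ^ 2 * t ^ 2) 1])
    refine (div_le_div_of_nonneg_right (min_le_left _ _) (by norm_num)).trans ?_
    rw [div_le_div_iff₀ (by norm_num) (by positivity)]
    have p1 : π ^ 2 ≤ 10 := by nlinarith [pi_lt_d2, pi_pos]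
    have p2 : (n : ℝ) ^ 2 ≤ 64 * m ^ 2 := by nlinarith
    nlinarith [mul_le_mul_of_nonneg_right (mul_le_mul p2 p1 (by positivity) (by positivity))
      (sq_nonneg t)]
  have h7 : 0 ≤ min ((n : ℝ) ^ 2 * t ^ 2) 1 := le_min (by positivity) zero_le_one
  have h8 : 0 ≤ ∑ k ∈ Icc 1 n, A n k := sum_nonneg fun k hk => (A_pos hk).le
  nlinarith [mul_le_mul h5 h6 (by positivity) (by positivity), mul_le_mul_of_nonneg_left hg c0.le,
    mul_nonneg h7 h8]

theorem near_pt {n : ℕ} {b e : ℕ → ℝ} {η : ℝ} (hn : 2 ≤ n) (hb : ∑ k ∈ Icc 1 n, |b k| = 1)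
    (hb' : ∑ k ∈ Icc 1 n, b k = 1) (hD : ∑ k ∈ Icc 1 n, |e k| ≤ 6 * n ^ 2 * η)
    (hE : -4 * η ≤ ∑ k ∈ Icc 1 n, e k) (hE' : ∑ k ∈ Icc 1 n, e k ≤ -η / 125) (η0 : 0 ≤ η)
    (η1 : n ^ 2 * η ≤ 1 / 10 ^ 6) (t : ℝ) :
    ‖P n b (Complex.exp (t * Complex.I)) + P n e (Complex.exp (t * Complex.I))‖ ^ 2 -
      ‖P n b (Complex.exp (t * Complex.I))‖ ^ 2 ≤ η * (-1 / 125 + 7 * (n ^ 4 * t ^ 2)) ∧
    ‖P n b (Complex.exp (t * Complex.I)) + P n e (Complex.exp (t * Complex.I))‖ ^ 2 -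
      ‖P n b (Complex.exp (t * Complex.I))‖ ^ 2 ≤ 18 * n ^ 2 * η := by
  have n2 : (2 : ℝ) ≤ n := by exact_mod_cast hn
  have n4 : (4 : ℝ) ≤ n ^ 2 := by nlinarith
  have D0 : 0 ≤ ∑ k ∈ Icc 1 n, |e k| := sum_nonneg fun _ _ => abs_nonneg _
  have h1 := (abs_le.1 (bil n b e t)).2
  have h2 := (abs_le.1 (bil n e e t)).2
  have h3 := norm_P_le n b (Complex.norm_exp_ofReal_mul_I t)
  have h4 := norm_P_le n e (Complex.norm_exp_ofReal_mul_I t)
  rw [hb, hb'] at h1
  rw [hb] at h3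
  rw [← sq_eq_re] at h2
  rw [norm_add_sq']
  generalize ∑ k ∈ Icc 1 n, |e k| = D at *
  generalize ∑ k ∈ Icc 1 n, e k = E at *
  constructor
  · have τ0 : 0 ≤ (n : ℝ) ^ 2 * t ^ 2 / 2 := by positivity
    have a0 : η ≤ 1 / 10 ^ 6 := by nlinarith
    have a1 : E * E ≤ η / 125 := by
      nlinarith [mul_self_le_mul_self (by linarith : 0 ≤ -E) (by linarith : -E ≤ 4 * η)]
    have a2 : 2 * D + D * D ≤ 14 * n ^ 2 * η := by nlinarith
    nlinarith [mul_le_mul_of_nonneg_right a2 τ0]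
  · have h5 := (Complex.re_le_norm _).trans ((norm_mul _ _).le.trans
      (mul_le_mul ((Complex.norm_conj _).le.trans h3) h4 (norm_nonneg _) zero_le_one))
    nlinarith [pow_le_pow_left₀ (norm_nonneg _) h4 2]

theorem lap {F G : ℝ → ℝ} (hF : Continuous F) (hG : Continuous G) (F0 : ∀ t, 0 ≤ F t)
    (G0 : ∀ t, 0 ≤ G t) {Q κ s x B : ℝ} (hQ : 1 ≤ Q) (κ0 : 0 < κ) (κ1 : κ ≤ 1 / 2) (s0 : 0 < s)
    (s1 : s ≤ π) (B0 : 0 < B) (hx : κ * B ≤ x)
    (core : ∀ t, |t| ≤ s → 1 - κ ≤ G t ∧ F t ≤ G t - x)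
    (out : ∀ t, |t| ≤ π → F t ≤ G t ∨ F t ≤ 1 - 2 * κ ∧ F t - G t ≤ B)
    (big : π * Q * (1 - κ) ^ (Q - 1) < κ * s) :
    ∫ t in -π..π, F t ^ Q < ∫ t in -π..π, G t ^ Q := by
  have Q0 : 0 ≤ Q - 1 := sub_nonneg.2 hQ
  have k0 : 0 < 1 - κ := by linarith
  have x0 : 0 ≤ x := (mul_pos κ0 B0).le.trans hx
  have pw : ∀ y : ℝ, 0 ≤ y → y ^ Q = y ^ (Q - 1) * y := fun y hy => by
    rw [← rpow_add_one' hy (by linarith), sub_add_cancel]
  have c1 : Continuous fun t => F t ^ Q := hF.rpow_const fun _ => .inr (by linarith)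
  have c2 : Continuous fun t => G t ^ Q := hG.rpow_const fun _ => .inr (by linarith)
  set r := (1 - κ) ^ (Q - 1) with hr
  have r0 : 0 < r := rpow_pos_of_pos k0 _
  have Y0 : 0 ≤ Q * B * r ^ 2 := by positivity
  have p1 : ∀ t, |t| ≤ π → 0 ≤ G t ^ Q - F t ^ Q + Q * B * r ^ 2 := fun t ht => by
    by_cases h : F t ≤ G t
    · linarith [rpow_le_rpow (F0 t) h (zero_le_one.trans hQ)]
    · obtain ⟨h1, h2⟩ := (out t ht).resolve_left h
      have h' := not_le.1 h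
      have f0 : 0 < F t := (G0 t).trans_lt h'
      have b := one_add_mul_self_le_rpow_one_add (s := G t / F t - 1)
        (by linarith [div_nonneg (G0 t) f0.le]) hQ
      rw [add_sub_cancel, div_rpow (G0 t) f0.le, le_div_iff₀ (rpow_pos_of_pos f0 _)] at b
      have e : (1 + Q * (G t / F t - 1)) * F t ^ Q =
          F t ^ Q - Q * (F t ^ (Q - 1) * (F t - G t)) := by
        rw [pw _ f0.le]
        field_simp
        ring
      have h3 : F t ^ (Q - 1) ≤ r ^ 2 := by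
        rw [hr, sq, ← mul_rpow k0.le k0.le]
        exact rpow_le_rpow f0.le (by nlinarith) Q0
      have h4 := mul_le_mul_of_nonneg_left (mul_le_mul h3 h2 (by linarith) (by positivity))
        (zero_le_one.trans hQ)
      linarith
  have p2 : ∀ t ∈ Set.Icc (-s) s, x * r ≤ G t ^ Q - F t ^ Q + Q * B * r ^ 2 := fun t ht => by
    obtain ⟨h1, h2⟩ := core t (abs_le.2 ht)
    have h3 : r ≤ G t ^ (Q - 1) := rpow_le_rpow k0.le h1 Q0
    have h4 := mul_le_mul (rpow_le_rpow (F0 t) (by linarith : F t ≤ G t) Q0) h2 (F0 t)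
      (r0.le.trans h3)
    rw [pw _ (F0 t), pw _ (G0 t)]
    nlinarith [mul_le_mul_of_nonneg_left h3 x0]
  have c3 : Continuous fun t => G t ^ Q - F t ^ Q + Q * B * r ^ 2 := by fun_prop
  have i1 := intervalIntegral.integral_mono_interval (neg_le_neg s1) (by linarith : -s ≤ s) s1
    ((MeasureTheory.ae_restrict_mem measurableSet_Ioc).mono fun t ht =>
      p1 t (abs_le.2 ⟨ht.1.le, ht.2⟩)) (c3.intervalIntegrable (μ := MeasureTheory.volume) _ _)
  have i2 := intervalIntegral.integral_mono_on (by linarith : -s ≤ s)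
    (continuous_const.intervalIntegrable (μ := MeasureTheory.volume) _ _)
    (c3.intervalIntegrable _ _) p2
  replace i2 := i2.trans i1
  rw [intervalIntegral.integral_add ((c2.fun_sub c1).intervalIntegrable _ _)
    (continuous_const.intervalIntegrable _ _), intervalIntegral.integral_sub
    (c2.intervalIntegrable _ _) (c1.intervalIntegrable _ _), intervalIntegral.integral_const,
    intervalIntegral.integral_const, smul_eq_mul, smul_eq_mul] at i2
  nlinarith [mul_lt_mul_of_pos_right big (mul_pos B0 r0),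
    mul_le_mul_of_nonneg_right hx (mul_pos s0 r0).le]

theorem big {n q : ℝ} (hn : 2 ≤ n) (hq : 10 ^ 12 * n ^ 2 * log n ≤ q) :
    1 ≤ q / 2 ∧ π * (q / 2) * (1 - 1 / 10 ^ 9 / n ^ 2) ^ (q / 2 - 1) <
      1 / 10 ^ 9 / n ^ 2 * (1 / 10 ^ 5 / n ^ 2) := by
  have n0 : 0 < n := by linarith
  have n4 : 4 ≤ n ^ 2 := by nlinarith
  have l2 : 1 / 2 ≤ log n := by linarith [log_two_gt_d9, log_le_log two_pos hn]
  have hQ : 1 ≤ q / 2 := by nlinarith
  refine ⟨hQ, ?_⟩
  set κ := 1 / 10 ^ 9 / n ^ 2 with hκ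
  have κ0 : 0 < κ := by positivity
  have κ1 : κ * n ^ 2 = 1 / 10 ^ 9 := div_mul_cancel₀ _ (by positivity)
  have κ2 : κ ≤ 1 / 2 := by nlinarith
  have h1 : (1 - κ) ^ (q / 2 - 1) ≤ exp (-κ * (q / 2 - 1)) := by
    rw [exp_mul]
    exact rpow_le_rpow (by linarith) (by linarith [add_one_le_exp (-κ)]) (by linarith)
  have h2 : n ^ 100 ≤ exp (κ * q / 4) := by
    rw [← exp_log (pow_pos n0 100), log_pow, exp_le_exp]
    have := mul_le_mul_of_nonneg_left hq κ0.le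
    push_cast
    nlinarith
  have h3 : κ * q / 4 ≤ exp (κ * q / 4) := by linarith [add_one_le_exp (κ * q / 4)]
  have h4 : exp κ ≤ 3 := (exp_le_exp.2 (by linarith)).trans (exp_one_lt_d9.le.trans (by norm_num))
  have h5 : exp (-κ * (q / 2 - 1)) * (exp (κ * q / 4) * exp (κ * q / 4)) = exp κ := by
    rw [← exp_add, ← exp_add]
    ring_nf
  have h6 : (2 : ℝ) ^ 94 ≤ n ^ 94 := pow_le_pow_left₀ zero_le_two hn _
  have y0 : 0 < κ * q / 4 := by have : 0 < q := by linarith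
                                positivity
  have h7 : exp (-κ * (q / 2 - 1)) * (κ * q / 4 * (2 ^ 94 * n ^ 6)) ≤ 3 := by
    refine le_trans (mul_le_mul_of_nonneg_left (mul_le_mul h3 (le_trans ?_ h2) (by positivity)
      (by positivity)) (exp_pos _).le) (h5.le.trans h4)
    rw [show n ^ 100 = n ^ 94 * n ^ 6 by ring]
    exact mul_le_mul_of_nonneg_right h6 (by positivity)
  refine (mul_le_mul (mul_le_mul_of_nonneg_right pi_le_four (by linarith)) h1
    (rpow_nonneg (by linarith) _) (by linarith)).trans_lt ?_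
  refine lt_of_mul_lt_mul_right ?_ (show 0 ≤ κ * n ^ 6 by positivity)
  have e : κ * (1 / 10 ^ 5 / n ^ 2) * (κ * n ^ 6) = 1 / 10 ^ 23 := by
    rw [hκ]
    field_simp
  rw [e]
  linarith

end Pool.Agent.MP_d3fa2a_an.R
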