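import Pool.Agent.MP_d3fa2a_an.R.Trig

/-! Real polynomials `∑ a k z ^ k` and the extremal coefficients. -/

set_option autoImplicit false

open Finset Real
open scoped ComplexConjugate

namespace Pool.Agent.MP_d3fa2a_an.R

/-- `∑ a k z ^ k` over `1 ≤ k ≤ n` -/
noncomputable def P (n : ℕ) (a : ℕ → ℝ) (z : ℂ) : ℂ := ∑ k ∈ Icc 1 n, (a k : ℂ) * z ^ k

/-- `sin (k π / N) / sin (π / N)` -/
noncomputable def sg (N k : ℕ) : ℝ := sn N k / sn N 1

/-- the extremal coefficients -/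
noncomputable def A (n k : ℕ) : ℝ := ((n : ℝ) + 1 - k) / n * sg (n + 1) k

theorem refl_sum {M : Type} [AddCommMonoid M] (n : ℕ) (f : ℕ → M) :
    ∑ k ∈ Icc 1 n, f (n + 1 - k) = ∑ k ∈ Icc 1 n, f k := by
  refine sum_nbij' (n + 1 - ·) (n + 1 - ·) ?_ ?_ ?_ ?_ fun _ _ => rfl <;>
  · simp only [mem_Icc]
    omega

theorem conj_P (n : ℕ) (a : ℕ → ℝ) (z : ℂ) : conj (P n a z) = P n a (conj z) := by
  simp only [P, map_sum, map_mul, map_pow, Complex.conj_ofReal]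

theorem P_inv (n : ℕ) (a : ℕ → ℝ) {z : ℂ} (hz : z ≠ 0) :
    z ^ (n + 1) * P n a z⁻¹ = P n (fun k => a (n + 1 - k)) z := by
  rw [P, P, ← refl_sum, mul_sum]
  refine sum_congr rfl fun k hk => ?_
  obtain ⟨j, hj⟩ := Nat.exists_eq_add_of_le ((mem_Icc.1 hk).2.trans n.le_succ)
  rw [Nat.succ_eq_add_one] at hj
  rw [hj, add_tsub_cancel_left, pow_add, inv_pow]
  field_simp

theorem P_congr {n : ℕ} {a b : ℕ → ℝ} (h : ∀ k ∈ Icc 1 n, a k = b k) (z : ℂ) :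
    P n a z = P n b z := sum_congr rfl fun k hk => by rw [h k hk]

theorem cont_P (n : ℕ) (a : ℕ → ℝ) : Continuous (P n a) := by
  unfold P
  fun_prop

theorem diff_P (n : ℕ) (a : ℕ → ℝ) : Differentiable ℂ (P n a) := by
  unfold P
  fun_prop

theorem norm_P_le (n : ℕ) (a : ℕ → ℝ) {z : ℂ} (hz : ‖z‖ = 1) :
    ‖P n a z‖ ≤ ∑ k ∈ Icc 1 n, |a k| :=
  norm_sum_le_of_le _ fun k _ => by
    rw [norm_mul, norm_pow, hz, one_pow, mul_one, Complex.norm_real, Real.norm_eq_abs]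

theorem sg_pos {N k : ℕ} (h1 : 1 ≤ k) (h2 : k < N) : 0 < sg N k :=
  div_pos (sn_pos h1 h2) (sn_pos le_rfl (by omega))

theorem sg_sub {N k : ℕ} (hN : 0 < N) (h : k ≤ N) : sg N (N - k) = sg N k := by
  rw [sg, sg, sn_sub hN h]

theorem A_pos {n k : ℕ} (hk : k ∈ Icc 1 n) : 0 < A n k := by
  rw [mem_Icc] at hk
  have h1 : (k : ℝ) ≤ n := by exact_mod_cast hk.2
  have h2 : (0 : ℝ) < n := by exact_mod_cast hk.1.trans hk.2
  exact mul_pos (div_pos (by linarith) h2) (sg_pos hk.1 (by omega))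

theorem A_one {n : ℕ} (hn : 1 ≤ n) : A n 1 = 1 := by
  have h2 : (0 : ℝ) < n := by exact_mod_cast hn
  have := sn_pos (N := n + 1) le_rfl (by omega)
  simp only [A, sg]
  field_simp
  simp

theorem sum_A (n : ℕ) :
    ∑ k ∈ Icc 1 n, A n k = ((n : ℝ) + 1) / (2 * n) * ∑ k ∈ Icc 1 n, sg (n + 1) k := by
  have h := refl_sum n (A n)
  have e : ∑ k ∈ Icc 1 n, A n (n + 1 - k) + ∑ k ∈ Icc 1 n, A n k =
      2 * (((n : ℝ) + 1) / (2 * n) * ∑ k ∈ Icc 1 n, sg (n + 1) k) := by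
    rw [← sum_add_distrib, mul_sum, mul_sum]
    refine sum_congr rfl fun k hk => ?_
    have hk' : k ≤ n + 1 := (mem_Icc.1 hk).2.trans n.le_succ
    simp only [A, sg_sub n.succ_pos hk']
    push_cast [hk']
    ring
  linarith

end Pool.Agent.MP_d3fa2a_an.R
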