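import Mathlib

/-! A self inversive polynomial with at most three zeros off the circle: the polar derivative
has at most one zero in the disc. -/

set_option autoImplicit false

open Polynomial
open scoped ComplexConjugate

namespace Pool.Agent.MP_d3fa2a_an.R

theorem szego {x y l m : ℂ} (hx : ‖x‖ < 1) (hy : ‖y‖ < 1) (hxy : x ≠ y) (h : l ≠ 0 ∨ m ≠ 0) :
    0 < (l * conj l / (1 - x * conj x) + l * conj m / (1 - x * conj y) +
      m * conj l / (1 - y * conj x) + m * conj m / (1 - y * conj y)).re := by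
  have ha : 0 < 1 - ‖x‖ ^ 2 := sub_pos.2 (pow_lt_one₀ (norm_nonneg _) hx two_ne_zero)
  have hb : 0 < 1 - ‖y‖ ^ 2 := sub_pos.2 (pow_lt_one₀ (norm_nonneg _) hy two_ne_zero)
  have hg : ‖1 - x * conj y‖ ^ 2 = (1 - ‖x‖ ^ 2) * (1 - ‖y‖ ^ 2) + ‖x - y‖ ^ 2 := by
    simp only [Complex.sq_norm, Complex.normSq_apply]
    simp
    ring
  have hd : 0 < ‖x - y‖ ^ 2 := pow_pos (norm_pos_iff.2 (sub_ne_zero.2 hxy)) 2
  have e : ∀ l x : ℂ, (l * conj l / (1 - x * conj x)).re = ‖l‖ ^ 2 / (1 - ‖x‖ ^ 2) := fun l x => by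
    rw [Complex.mul_conj', Complex.mul_conj']
    norm_cast
  have h1 : -(‖l‖ * ‖m‖ / ‖1 - x * conj y‖) ≤ (l * conj m / (1 - x * conj y)).re := by
    refine le_trans (le_of_eq ?_) (abs_le.1 (Complex.abs_re_le_norm _)).1
    rw [norm_div, norm_mul, Complex.norm_conj]
  have h2 : (m * conj l / (1 - y * conj x)).re = (l * conj m / (1 - x * conj y)).re := by
    rw [← Complex.conj_re]
    simp only [map_div₀, map_mul, map_sub, map_one, Complex.conj_conj, mul_comm]
  simp only [Complex.add_re, e, h2]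
  have hg0 : 0 < ‖1 - x * conj y‖ := by
    refine lt_of_le_of_ne (norm_nonneg _) fun h0 => ?_
    rw [← h0] at hg
    nlinarith [mul_pos ha hb]
  generalize ‖1 - x * conj y‖ = g at *
  generalize 1 - ‖x‖ ^ 2 = a at *
  generalize 1 - ‖y‖ ^ 2 = b at *
  have h3 : ‖l‖ ^ 2 / a + ‖m‖ ^ 2 / b - 2 * (‖l‖ * ‖m‖ / g) =
      (‖l‖ - a * ‖m‖ / g) ^ 2 / a + ‖m‖ ^ 2 * ((g ^ 2 - a * b) / (b * g ^ 2)) := by
    field_simp
    ring
  have h4 : 0 < (g ^ 2 - a * b) / (b * g ^ 2) := div_pos (by linarith) (by positivity)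
  have h5 : 0 < (‖l‖ - a * ‖m‖ / g) ^ 2 / a + ‖m‖ ^ 2 * ((g ^ 2 - a * b) / (b * g ^ 2)) := by
    rcases eq_or_ne m 0 with rfl | hm
    · have := norm_pos_iff.2 (h.resolve_right fun h => h rfl)
      simp only [norm_zero, mul_zero, zero_div, sub_zero]
      positivity
    · have := norm_pos_iff.2 hm
      positivity
  linarith

theorem one_sub_ne {x y : ℂ} (hx : ‖x‖ < 1) (hy : ‖y‖ < 1) : 1 - x * conj y ≠ 0 := fun h => by
  have := congrArg norm (sub_eq_zero.1 h)
  rw [norm_one, norm_mul, Complex.norm_conj] at this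
  nlinarith [norm_nonneg x, norm_nonneg y]

theorem ker {q : ℂ[X]} (hq0 : q.eval 0 ≠ 0) (hN : 0 < q.natDegree)
    (hs : ∀ z, z ≠ 0 → q.eval z = 0 → q.eval (conj z)⁻¹ = 0)
    (h3 : (q.roots.filter fun z => ‖z‖ ≠ 1).card ≤ 3) {x y : ℂ} (hx : ‖x‖ < 1) (hy : ‖y‖ < 1)
    (hx0 : x ≠ 0) (hy0 : y ≠ 0) (h1 : ∀ z, z = x ∨ z = y → z * q.derivative.eval z =
      q.natDegree * q.eval z ∧ q.derivative.eval (conj z)⁻¹ = 0) : x = y := by
  by_contra hxy
  have hq : q ≠ 0 := fun h => hq0 (by simp [h])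
  have hr0 : ∀ z, q.eval z = 0 → z ≠ 0 := fun z hz h => hq0 (h ▸ hz)
  have hout : ∀ z : ℂ, z ≠ 0 → ‖z‖ < 1 → 1 < ‖(conj z)⁻¹‖ := fun z h0 h => by
    rw [norm_inv, Complex.norm_conj]
    exact (one_lt_inv₀ (norm_pos_iff.2 h0)).2 h
  have hcard : ¬(2 ≤ (q.roots.filter fun z => ‖z‖ < 1).card ∧
      2 ≤ (q.roots.filter fun z => 1 < ‖z‖).card) := by
    rintro ⟨a, b⟩
    have := congrArg Multiset.card (Multiset.filter_add_filter (fun z => ‖z‖ < 1)
      (fun z => 1 < ‖z‖) q.roots)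
    rw [Multiset.card_add, Multiset.card_add,
      Multiset.filter_congr (p := fun z => ‖z‖ < 1 ∨ 1 < ‖z‖) (q := fun z => ‖z‖ ≠ 1)
        fun z _ => ne_iff_lt_or_gt.symm,
      (Multiset.filter_eq_nil (p := fun z : ℂ => ‖z‖ < 1 ∧ 1 < ‖z‖)).2
        fun z _ h => lt_asymm h.1 h.2, Multiset.card_zero] at this
    omega
  have two : ∀ (p : ℂ → Prop) [DecidablePred p] (u v : ℂ), u ≠ v → p u → p v → q.eval u = 0 →
      q.eval v = 0 → 2 ≤ (q.roots.filter p).card := fun p _ u v huv pu pv hu hv => by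
    refine le_trans ?_ (Multiset.toFinset_card_le _)
    refine Finset.one_lt_card.2 ⟨u, ?_, v, ?_, huv⟩ <;>
      simp [*]
  have dbl : ∀ (p : ℂ → Prop) [DecidablePred p] (u : ℂ), p u → q.eval u = 0 →
      q.derivative.eval u = 0 → 2 ≤ (q.roots.filter p).card := fun p _ u pu hu hu' => by
    refine le_trans ?_ (Multiset.count_le_card u _)
    rw [Multiset.count_filter_of_pos pu, count_roots]
    exact (one_lt_rootMultiplicity_iff_isRoot hq).2 ⟨hu, hu'⟩
  have hz : ∀ z, z = x ∨ z = y → z ≠ 0 ∧ ‖z‖ < 1 := by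
    rintro z (rfl | rfl) <;> exact ⟨‹_›, ‹_›⟩
  have hne : ∀ z, z = x ∨ z = y → q.eval z ≠ 0 := fun z h hq => by
    refine hcard ⟨dbl _ z (hz z h).2 hq ?_, dbl _ _ (hout z (hz z h).1 (hz z h).2)
      (hs z (hz z h).1 hq) (h1 z h).2⟩
    have := (h1 z h).1
    rw [hq, mul_zero] at this
    exact (mul_eq_zero.1 this).resolve_left (hz z h).1
  have hne' : ∀ z, z = x ∨ z = y → q.eval (conj z)⁻¹ ≠ 0 := fun z h hq => by
    have := hs _ (hr0 _ hq) hq
    rw [map_inv₀, Complex.conj_conj, inv_inv] at this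
    exact hne z h this
  obtain ⟨β, hβ⟩ : ∃ β : ℂ, ∀ z, q.eval z = 0 → ‖z‖ < 1 → z = β := by
    by_cases h : ∃ β, q.eval β = 0 ∧ ‖β‖ < 1
    · obtain ⟨β, b1, b2⟩ := h
      refine ⟨β, fun z z1 z2 => ?_⟩
      by_contra hzb
      refine hcard ⟨two _ z β hzb z2 b2 z1 b1, two _ _ _ (fun h => hzb ?_) (hout z (hr0 z z1) z2)
        (hout β (hr0 β b1) b2) (hs z (hr0 z z1) z1) (hs β (hr0 β b1) b1)⟩
      exact (starRingEnd ℂ).injective (inv_injective h)
    · exact ⟨0, fun z z1 z2 => absurd ⟨z, z1, z2⟩ h⟩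
  have hd : ∀ ζ ∈ q.roots, ∀ z, z = x ∨ z = y → ζ - z ≠ 0 ∧ 1 - ζ * conj z ≠ 0 := by
    intro ζ hζ z h
    have hζ' : q.eval ζ = 0 := (mem_roots hq).1 hζ
    refine ⟨fun e => hne z h (sub_eq_zero.1 e ▸ hζ'), fun e => hne' z h ?_⟩
    rwa [← eq_inv_of_mul_eq_one_left (sub_eq_zero.1 e).symm]
  have K : ∀ u v, u = x ∨ u = y → v = x ∨ v = y →
      (q.roots.map fun ζ => ζ / ((ζ - u) * (1 - ζ * conj v))).sum =
        -q.natDegree / (1 - u * conj v) := by
    intro u v hu hv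
    have a := (IsAlgClosed.splits q).eval_derivative_div_eval_of_ne_zero (hne u hu)
    have b := (IsAlgClosed.splits q).eval_derivative_div_eval_of_ne_zero (hne' v hv)
    have c := one_sub_ne (hz u hu).2 (hz v hv).2
    have d : conj v ≠ 0 := (_root_.map_ne_zero _).2 (hz v hv).1
    rw [Multiset.map_congr rfl (g := fun ζ => (1 - u * conj v)⁻¹ * ((conj v)⁻¹ *
      (1 / ((conj v)⁻¹ - ζ)) - u * (1 / (u - ζ)))) fun ζ hζ => ?_]
    · rw [Multiset.sum_map_mul_left, Multiset.sum_map_sub, Multiset.sum_map_mul_left,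
        Multiset.sum_map_mul_left, ← a, ← b, (h1 v hv).2, ← mul_div_assoc u, (h1 u hu).1,
        mul_div_cancel_right₀ _ (hne u hu)]
      ring
    · have e1 := (hd ζ hζ u hu).1
      have e2 := (hd ζ hζ v hv).2
      have e3 : u - ζ ≠ 0 := fun h => e1 (by linear_combination -h)
      have e4 : 1 - conj v * ζ ≠ 0 := by rwa [mul_comm]
      field_simp
      ring
  have hS := szego (l := β - x) (m := y - β) hx hy hxy (by
    by_contra h
    push Not at h
    exact hxy (by linear_combination -h.1 - h.2))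
  have hsum : (q.roots.map fun ζ => ζ * ((β - x) / (ζ - x) + (y - β) / (ζ - y)) *
      (conj (β - x) / (1 - ζ * conj x) + conj (y - β) / (1 - ζ * conj y))).sum =
      -q.natDegree * ((β - x) * conj (β - x) / (1 - x * conj x) +
        (β - x) * conj (y - β) / (1 - x * conj y) + (y - β) * conj (β - x) / (1 - y * conj x) +
        (y - β) * conj (y - β) / (1 - y * conj y)) := by
    rw [Multiset.map_congr rfl (g := fun ζ =>
      (β - x) * conj (β - x) * (ζ / ((ζ - x) * (1 - ζ * conj x))) +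
      (β - x) * conj (y - β) * (ζ / ((ζ - x) * (1 - ζ * conj y))) +
      (y - β) * conj (β - x) * (ζ / ((ζ - y) * (1 - ζ * conj x))) +
      (y - β) * conj (y - β) * (ζ / ((ζ - y) * (1 - ζ * conj y)))) fun ζ _ => by
        simp only [div_eq_mul_inv, mul_inv]
        ring]
    simp only [Multiset.sum_map_add, Multiset.sum_map_mul_left]
    rw [K x x (.inl rfl) (.inl rfl), K x y (.inl rfl) (.inr rfl), K y x (.inr rfl) (.inl rfl),
      K y y (.inr rfl) (.inr rfl)]
    ring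
  have hpos : 0 ≤ ((q.roots.map fun ζ => ζ * ((β - x) / (ζ - x) + (y - β) / (ζ - y)) *
      (conj (β - x) / (1 - ζ * conj x) + conj (y - β) / (1 - ζ * conj y))).sum).re := by
    rw [← Complex.reCLM_apply, map_multiset_sum, Multiset.map_map]
    refine Multiset.sum_nonneg fun r hr => ?_
    obtain ⟨ζ, hζ, rfl⟩ := Multiset.mem_map.1 hr
    have hζ' : q.eval ζ = 0 := (mem_roots hq).1 hζ
    obtain ⟨x1, x2⟩ := hd ζ hζ x (.inl rfl)
    obtain ⟨y1, y2⟩ := hd ζ hζ y (.inr rfl)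
    have z0 := hr0 ζ hζ'
    simp only [Function.comp, Complex.reCLM_apply]
    rcases lt_trichotomy ‖ζ‖ 1 with h | h | h
    · obtain rfl := hβ ζ hζ' h
      have : (ζ - x) / (ζ - x) + (y - ζ) / (ζ - y) = 0 := by
        field_simp
        ring
      simp [this]
    · have e : conj ζ = ζ⁻¹ := (Complex.inv_eq_conj h).symm
      have e2 : ∀ l u : ℂ, 1 - ζ * conj u ≠ 0 → conj (l / (ζ - u)) =
          ζ * (conj l / (1 - ζ * conj u)) := fun l u hu => by
        rw [map_div₀, map_sub, e]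
        field_simp
      rw [mul_comm ζ, mul_assoc, mul_add, ← e2 _ _ x2, ← e2 _ _ y2, ← map_add, Complex.mul_conj']
      norm_cast
      positivity
    · have b := hβ _ (hs ζ z0 hζ') (by
        rw [norm_inv, Complex.norm_conj]
        exact inv_lt_one_of_one_lt₀ h)
      have : conj (β - x) / (1 - ζ * conj x) + conj (y - β) / (1 - ζ * conj y) = 0 := by
        rw [← b, map_sub, map_sub, map_inv₀, Complex.conj_conj]
        field_simp
        ring
      rw [this, mul_zero, Complex.zero_re]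
  rw [hsum, neg_mul, Complex.neg_re, ← Complex.ofReal_natCast, Complex.re_ofReal_mul] at hpos
  have : (0 : ℝ) < q.natDegree := by exact_mod_cast hN
  nlinarith [mul_pos this hS]

end Pool.Agent.MP_d3fa2a_an.R
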