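import Pool.Agent.MP_d3fa2a_an.R.Def
import Pool.Agent.MP_d3fa2a_an.R.Ker

/-! The extremal polynomial is injective on the disc. -/

set_option autoImplicit false

open Finset Real Polynomial Metric
open scoped ComplexConjugate

namespace Pool.Agent.MP_d3fa2a_an.R

theorem closed (a : ℝ) (z : ℂ) (n : ℕ) :
    (1 - 2 * cos a * z + z ^ 2) * ∑ k ∈ Icc 1 n, (sin (k * a) : ℂ) * z ^ k =
      sin a * z - sin ((n + 1) * a) * z ^ (n + 1) + sin (n * a) * z ^ (n + 2) := by
  induction n with
  | zero => simp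
  | succ n ih =>
    have e : sin ((n + 1 + 1) * a) = 2 * cos a * sin ((n + 1) * a) - sin (n * a) := by
      rw [show (n + 1 + 1) * a = (n + 1) * a + a by ring, show n * a = (n + 1) * a - a by ring,
        sin_add, sin_sub]
      ring
    rw [sum_Icc_succ_top (by omega), mul_add, ih, Nat.cast_succ, e]
    simp only [Complex.ofReal_sub, Complex.ofReal_mul, Complex.ofReal_ofNat]
    ring

theorem node_zero {n : ℕ} {t : ℝ} (h1 : π / (n + 1 : ℕ) < t) (h2 : t < 2 * π - π / (n + 1 : ℕ))
    (h3 : Complex.exp (t * Complex.I) ^ (n + 1) = -1) :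
    P n (sn (n + 1)) (Complex.exp (t * Complex.I)) = 0 := by
  have ha := al_pos n.succ_pos
  have hc := closed (π / (n + 1 : ℕ)) (Complex.exp (t * Complex.I)) n
  have e1 : ((n : ℝ) + 1) * (π / (n + 1 : ℕ)) = π := by
    exact_mod_cast mul_al n.succ_pos
  have e2 : sin (n * (π / (n + 1 : ℕ))) = sin (π / (n + 1 : ℕ)) := by
    rw [← sin_pi_sub]
    congr 1
    linarith
  have h4 : cos t < cos (π / (n + 1 : ℕ)) := by
    rcases le_total t π with h | h
    · exact cos_lt_cos_of_nonneg_of_le_pi ha.le h h1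
    · rw [← cos_two_pi_sub]
      exact cos_lt_cos_of_nonneg_of_le_pi ha.le (by linarith) (by linarith)
  rw [e1, e2, sin_pi, pow_succ _ (n + 1), h3] at hc
  have e3 : (1 - 2 * cos (π / (n + 1 : ℕ)) * Complex.exp (t * Complex.I) +
      Complex.exp (t * Complex.I) ^ 2 : ℂ) =
      2 * Complex.exp (t * Complex.I) * ((cos t - cos (π / (n + 1 : ℕ)) : ℝ) : ℂ) := by
    have := Complex.two_cos (t : ℂ)
    have h5 : Complex.exp (t * Complex.I) * Complex.exp (-t * Complex.I) = 1 := by
      rw [← Complex.exp_add]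
      simp
    rw [Complex.ofReal_sub, Complex.ofReal_cos t]
    linear_combination -Complex.exp (t * Complex.I) * this - h5
  rw [e3] at hc
  refine (mul_eq_zero.1 (hc.trans (by simp))).resolve_left ?_
  exact mul_ne_zero (mul_ne_zero two_ne_zero (Complex.exp_ne_zero _))
    (Complex.ofReal_ne_zero.2 (sub_neg.2 h4).ne)

theorem circle_roots {n : ℕ} {f : ℂ → ℂ} (hf : Continuous f) {v : ℝ} (hv : v ≠ 0)
    (hs : ∀ z, ‖z‖ = 1 → z ^ (n + 1) * conj (f z) = f z)
    (hn : ∀ t : ℝ, π / (n + 1 : ℕ) < t → t < 2 * π - π / (n + 1 : ℕ) →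
      Complex.exp (t * Complex.I) ^ (n + 1) = -1 → f (Complex.exp (t * Complex.I)) = v * Complex.I) :
    ∃ U : Finset ℂ, n - 2 ≤ U.card ∧ ∀ z ∈ U, ‖z‖ = 1 ∧ f z = 0 := by
  have ha := al_pos n.succ_pos
  have e1 := mul_al n.succ_pos
  set a := π / (n + 1 : ℕ) with ha'
  set φ : ℝ → ℂ := fun t => Complex.exp (-((n + 1 : ℕ) * t) / 2 * Complex.I) *
    f (Complex.exp (t * Complex.I)) with hφ
  have him : ∀ t, (φ t).im = 0 := fun t => by
    rw [← Complex.conj_eq_iff_im, hφ]
    simp only [map_mul]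
    conv_rhs => rw [← hs _ (Complex.norm_exp_ofReal_mul_I t), ← mul_assoc, ← Complex.exp_nat_mul,
      ← Complex.exp_add]
    rw [← Complex.exp_conj]
    congr 2
    simp only [map_mul, map_div₀, map_neg, Complex.conj_ofReal, Complex.conj_I, map_natCast,
      map_ofNat]
    ring
  have hval : ∀ i : ℕ, i + 2 ≤ n → (φ ((2 * i + 3 : ℕ) * a)).re = -v * (-1) ^ i := by
    intro i hi
    have hi' : (i : ℝ) + 2 ≤ n := by exact_mod_cast hi
    have e2 : ((n + 1 : ℕ) : ℂ) * (((2 * i + 3 : ℕ) * a : ℝ) : ℂ) = (2 * i + 3 : ℕ) * π := by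
      have : ((n + 1 : ℕ) : ℝ) * ((2 * i + 3 : ℕ) * a) = (2 * i + 3 : ℕ) * π := by
        rw [mul_left_comm, e1]
      exact_mod_cast this
    push_cast at e1
    simp only [hφ]
    rw [hn _ (by push_cast; nlinarith [mul_nonneg (Nat.cast_nonneg (α := ℝ) i) ha.le])
      (by push_cast; nlinarith) (by
        rw [← Complex.exp_nat_mul, ← mul_assoc, e2, mul_assoc, Complex.exp_nat_mul,
          Complex.exp_pi_mul_I, pow_add, pow_mul]
        norm_num), e2, show -(((2 * i + 3 : ℕ) : ℂ) * π) / 2 * Complex.I =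
        (2 * i + 3 : ℕ) * (-π / 2 * Complex.I) by ring, Complex.exp_nat_mul,
      Complex.exp_neg_pi_div_two_mul_I, pow_add, pow_mul, neg_sq, Complex.I_sq]
    have : (-1 : ℂ) ^ i * (-Complex.I) ^ 3 * (v * Complex.I) = ((-v * (-1) ^ i : ℝ) : ℂ) := by
      push_cast
      linear_combination (-(-1) ^ i * v * (Complex.I ^ 2 - 1)) * Complex.I_sq
    rw [this, Complex.ofReal_re]
  have hex : ∀ i : ℕ, ∃ t : ℝ, i + 3 ≤ n → ((2 * i + 3 : ℕ) * a < t ∧ t < (2 * (i + 1) + 3 : ℕ) * a) ∧
      f (Complex.exp (t * Complex.I)) = 0 := by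
    intro i
    by_cases hi : i + 3 ≤ n
    · have hc : Continuous fun t => v * (-1) ^ i * (φ t).re := by
        simp only [hφ]
        fun_prop
      have h0 : 0 < v ^ 2 := by positivity
      have h1 : ((-1 : ℝ) ^ i) ^ 2 = 1 := by rw [← pow_mul, mul_comm, pow_mul]; simp
      obtain ⟨t, ht, h⟩ := intermediate_value_Ioo (a := (2 * i + 3 : ℕ) * a)
        (b := (2 * (i + 1) + 3 : ℕ) * a)
        (mul_le_mul_of_nonneg_right (by exact_mod_cast (by omega)) ha.le) hc.continuousOn
        (show (0 : ℝ) ∈ _ by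
          simp only [Set.mem_Ioo]
          rw [hval i (by omega), hval (i + 1) (by omega), pow_succ]
          constructor <;> nlinarith)
      refine ⟨t, fun _ => ⟨ht, ?_⟩⟩
      have h2 : φ t = 0 := Complex.ext ((mul_eq_zero.1 h).resolve_left
        (mul_ne_zero hv (pow_ne_zero _ (by norm_num)))) (him t)
      exact (mul_eq_zero.1 h2).resolve_left (Complex.exp_ne_zero _)
    · exact ⟨0, fun h => absurd h hi⟩
  choose τ hτ using hex
  have hm : ∀ i j : ℕ, i + 3 ≤ n → j + 3 ≤ n → i < j → τ i < τ j := fun i j hi hj h =>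
    (hτ i hi).1.2.trans_le ((mul_le_mul_of_nonneg_right (by exact_mod_cast (by omega))
      ha.le).trans (hτ j hj).1.1.le)
  have hI : ∀ i : ℕ, i + 3 ≤ n → τ i ∈ Set.Ico 0 (2 * π) := fun i hi =>
    ⟨le_trans (by positivity) (hτ i hi).1.1.le, (hτ i hi).1.2.trans_le (by
      rw [← e1, ← mul_assoc]
      exact mul_le_mul_of_nonneg_right (by exact_mod_cast (by omega)) ha.le)⟩
  refine ⟨(range (n - 2)).image fun i => Complex.exp (τ i * Complex.I), ?_, ?_⟩
  · rw [card_image_of_injOn, card_range]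
    intro i hi j hj h
    have hi' : i + 3 ≤ n := by have := mem_range.1 hi; omega
    have hj' : j + 3 ≤ n := by have := mem_range.1 hj; omega
    have := Circle.exp_injOn_Ico (by simp) (hI i hi') (hI j hj') (Subtype.ext h)
    rcases lt_trichotomy i j with h | h | h
    exacts [absurd this (hm i j hi' hj' h).ne, h, absurd this (hm j i hj' hi' h).ne']
  · simp only [mem_image, mem_range]
    rintro _ ⟨i, hi, rfl⟩
    exact ⟨Complex.norm_exp_ofReal_mul_I _, (hτ i (by omega)).2⟩

theorem inj_nonreal {n : ℕ} (hn : 1 ≤ n) {x y : ℂ} (hx : ‖x‖ < 1) (hy : ‖y‖ < 1)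
    (h : P n (A n) x = P n (A n) y) (hw : (P n (A n) x).im ≠ 0) : x = y := by
  set w := P n (A n) x with hw'
  have w0 : w ≠ 0 := fun h => hw (by simp [h])
  have n0 : (n : ℝ) ≠ 0 := by exact_mod_cast (by omega)
  set c : ℕ → ℝ := fun k => (n + 1) / n * sg (n + 1) k with hc
  set q : ℂ[X] := C (-w) + ∑ k ∈ Icc 1 n, monomial k (c k : ℂ) + monomial (n + 1) (-conj w) with hq
  have ev : ∀ z, q.eval z = -w + P n c z - conj w * z ^ (n + 1) := fun z => by
    simp [hq, eval_finsetSum, P, sub_eq_add_neg]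
  have ev' : ∀ z, z * q.derivative.eval z =
      P n (fun k => k * c k) z - (n + 1) * conj w * z ^ (n + 1) := fun z => by
    simp only [hq, derivative_add, derivative_C, derivative_sum, derivative_monomial, zero_add,
      eval_add, eval_finsetSum, eval_monomial, mul_add, mul_sum, P, sub_eq_add_neg]
    congr 1
    · refine sum_congr rfl fun k hk => ?_
      obtain ⟨j, rfl⟩ := Nat.exists_eq_add_of_le' (mem_Icc.1 hk).1
      push_cast
      ring
    · push_cast
      ring
  have hd : q.natDegree = n + 1 := by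
    rw [hq, natDegree_add_eq_right_of_natDegree_lt] <;>
      rw [natDegree_monomial_eq _ (by simpa using w0)]
    refine (natDegree_add_le_of_degree_le (n := n) (by simp)
      (natDegree_sum_le_of_forall_le _ _ fun k hk =>
        (natDegree_monomial_le _).trans (mem_Icc.1 hk).2)).trans_lt n.lt_succ_self
  have cs : ∀ z, P n (fun k => c (n + 1 - k)) z = P n c z :=
    P_congr fun k hk => by simp only [hc, sg_sub n.succ_pos ((mem_Icc.1 hk).2.trans n.le_succ)]
  have hs : ∀ z, z ≠ 0 → z ^ (n + 1) * conj (q.eval (conj z)⁻¹) = q.eval z := fun z hz => by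
    simp only [ev, map_add, map_sub, map_neg, map_mul, map_pow, conj_P, map_inv₀,
      Complex.conj_conj, mul_add, mul_sub, P_inv n c hz, cs, inv_pow]
    field_simp
    ring
  have hA : ∀ z, ((n : ℂ) + 1) * P n c z - P n (fun k => k * c k) z = (n + 1) * P n (A n) z := by
    intro z
    simp only [P, mul_sum, ← sum_sub_distrib, hc, A]
    refine sum_congr rfl fun k _ => ?_
    push_cast
    ring
  have hB : ∀ z, P n (fun k => (n + 1 - k : ℕ) * c (n + 1 - k)) z = (n + 1) * P n (A n) z := by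
    intro z
    simp only [P, mul_sum, hc, A]
    refine sum_congr rfl fun k hk => ?_
    have hk' := (mem_Icc.1 hk).2.trans n.le_succ
    rw [sg_sub n.succ_pos hk']
    push_cast [hk']
    ring
  have q0 : q.eval 0 ≠ 0 := by
    rw [ev, P, sum_eq_zero fun k hk => by rw [zero_pow (by have := mem_Icc.1 hk; omega), mul_zero]]
    simpa using w0
  have hq0 : q ≠ 0 := fun h => q0 (by simp [h])
  have z0 : ∀ z, P n (A n) z = w → z ≠ 0 := fun z h h0 => w0 (by
    rw [← h, h0, P]
    exact sum_eq_zero fun k hk => by rw [zero_pow (by have := mem_Icc.1 hk; omega), mul_zero])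
  refine ker q0 (by omega) (fun z hz h => ?_) ?_ hx hy (z0 x rfl) (z0 y h.symm) fun z hz => ?_
  · have := hs z hz
    rw [h, mul_eq_zero, _root_.map_eq_zero] at this
    exact this.resolve_left (pow_ne_zero _ hz)
  · obtain ⟨U, h1, h2⟩ := circle_roots (n := n) (f := q.eval) (v := -2 * w.im) q.continuous
      (by simpa using hw) (fun z hz => by
        have := hs z (norm_pos_iff.1 (hz ▸ one_pos))
        rwa [← Complex.inv_eq_conj hz, inv_inv] at this)
      fun t t1 t2 t3 => by
        have : P n c (Complex.exp (t * Complex.I)) = ((n + 1) / n / sn (n + 1) 1 : ℝ) *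
            P n (sn (n + 1)) (Complex.exp (t * Complex.I)) := by
          simp only [P, mul_sum, hc, sg]
          refine sum_congr rfl fun k _ => ?_
          push_cast
          ring
        rw [ev, t3, this, node_zero t1 t2 t3]
        have := Complex.sub_conj w
        push_cast at this ⊢
        linear_combination -this
    have h3 : U.val ≤ q.roots.filter fun z => ¬‖z‖ ≠ 1 :=
      (Multiset.le_iff_subset U.nodup).2 fun z hz => Multiset.mem_filter.2
        ⟨(mem_roots hq0).2 (h2 z hz).2, not_not.2 (h2 z hz).1⟩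
    have h4 := Multiset.card_le_card h3
    have h5 := congrArg Multiset.card (Multiset.filter_add_not (fun z => ‖z‖ ≠ 1) q.roots)
    rw [Multiset.card_add, IsAlgClosed.card_roots_eq_natDegree, hd] at h5
    rw [card_val] at h4
    omega
  · have hz' : P n (A n) z = w := by
      rcases hz with rfl | rfl
      exacts [rfl, h.symm]
    have c0 : conj z ≠ 0 := (_root_.map_ne_zero _).2 (z0 z hz')
    constructor
    · rw [ev', ev, hd]
      push_cast
      linear_combination -hA z - (n + 1) * hz'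
    · have h1 := congrArg (conj z ^ (n + 1) * ·) (ev' (conj z)⁻¹)
      simp only [mul_sub, P_inv n _ c0, hB, ← conj_P, hz', inv_pow] at h1
      rw [mul_left_comm _ ((n + 1) * conj w), mul_inv_cancel₀ (pow_ne_zero _ c0), mul_one,
        sub_self] at h1
      simpa [c0, z0 z hz'] using h1

theorem S_inj {n : ℕ} (hn : 1 ≤ n) : Set.InjOn (P n (A n)) (ball 0 1) := by
  intro x hx y hy h
  by_contra hxy
  have ho : IsOpenMap (P n (A n)) := by
    refine (AnalyticOnNhd.is_constant_or_isOpenMap fun z _ =>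
      (diff_P n (A n)).analyticAt z).resolve_left ?_
    rintro ⟨w, hw⟩
    have h1 := (hw 1).trans (hw 0).symm
    rw [P, P, sum_eq_zero (f := fun k => (A n k : ℂ) * 0 ^ k) fun k hk => by
      rw [zero_pow (by have := mem_Icc.1 hk; omega), mul_zero]] at h1
    simp only [one_pow, mul_one] at h1
    exact (sum_pos (fun k hk => A_pos hk) ⟨1, mem_Icc.2 ⟨le_rfl, hn⟩⟩).ne' (by exact_mod_cast h1)
  obtain ⟨U, V, hU, hV, xU, yV, hd⟩ := t2_separation hxy
  obtain ⟨ε, e0, he⟩ := Metric.isOpen_iff.1 ((ho _ (hU.inter isOpen_ball)).inter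
    (ho _ (hV.inter isOpen_ball))) (P n (A n) x) ⟨⟨x, ⟨xU, hx⟩, rfl⟩, ⟨y, ⟨yV, hy⟩, h.symm⟩⟩
  by_cases hw : (P n (A n) x).im = 0
  · obtain ⟨⟨u, hu, h1⟩, v, hv, h2⟩ := he (a := P n (A n) x + (ε / 2 : ℝ) * Complex.I) (by
      rw [mem_ball, dist_eq_norm, add_sub_cancel_left, norm_mul, Complex.norm_I, Complex.norm_real,
        Real.norm_of_nonneg (by positivity)]
      linarith)
    have := inj_nonreal hn (mem_ball_zero_iff.1 hu.2) (mem_ball_zero_iff.1 hv.2)
      (h1.trans h2.symm) (by
        rw [h1]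
        simp [hw, e0.ne'])
    exact Set.disjoint_left.1 hd hu.1 (this ▸ hv.1)
  · exact hxy (inj_nonreal hn (mem_ball_zero_iff.1 hx) (mem_ball_zero_iff.1 hy) h hw)

end Pool.Agent.MP_d3fa2a_an.R
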