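import Pool.Agent.MP_d3fa2a_an.R.Dec
import Pool.Agent.MP_d3fa2a_an.R.Uni

/-! Comparison of the integral means for large exponents. -/

set_option autoImplicit false

open Finset Real Metric

namespace Pool.Agent.MP_d3fa2a_an.R

theorem main_lt {n : ℕ} {a : ℕ → ℝ} {η q : ℝ} (hn : 2 ≤ n) (η0 : 0 < η) (_η1 : η ≤ 1)
    (f1 : ∑ k ∈ Icc 1 n, |a k| ≤ (1 - η / 125) * ∑ k ∈ Icc 1 n, A n k)
    (f2 : ∑ k ∈ Icc 1 n, |a k - A n k| ≤ 6 * n ^ 2 * η * ∑ k ∈ Icc 1 n, A n k)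
    (f3 : -4 * η * ∑ k ∈ Icc 1 n, A n k ≤ ∑ k ∈ Icc 1 n, (a k - A n k))
    (hq : 10 ^ 12 * n ^ 2 * log n ≤ q) :
    ∫ t in -π..π, ‖P n a (Complex.exp (t * Complex.I))‖ ^ q <
      ∫ t in -π..π, ‖P n (A n) (Complex.exp (t * Complex.I))‖ ^ q := by
  have n2 : (2 : ℝ) ≤ n := by exact_mod_cast hn
  have n4 : (4 : ℝ) ≤ n ^ 2 := by nlinarith
  obtain ⟨hQ, hbig⟩ := big n2 hq
  have hdec := fun t : ℝ => decay hn (t := t)
  set M := ∑ k ∈ Icc 1 n, A n k with hM
  have M0 : 0 < M := sum_pos (fun k hk => A_pos hk) ⟨1, mem_Icc.2 (by omega)⟩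
  have hP : ∀ (c : ℕ → ℝ) (z : ℂ), ‖P n (fun k => c k / M) z‖ = ‖P n c z‖ / M := fun c z => by
    have : P n (fun k => c k / M) z = P n c z / M := by
      simp only [P, sum_div, Complex.ofReal_div, div_mul_eq_mul_div]
    rw [this, norm_div, Complex.norm_real, Real.norm_of_nonneg M0.le]
  have hI : ∀ c : ℕ → ℝ, ∫ t in -π..π, ‖P n c (Complex.exp (t * Complex.I))‖ ^ q = M ^ q *
      ∫ t in -π..π, (‖P n (fun k => c k / M) (Complex.exp (t * Complex.I))‖ ^ 2) ^ (q / 2) := by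
    intro c
    rw [← intervalIntegral.integral_const_mul]
    refine intervalIntegral.integral_congr fun t _ => ?_
    rw [← rpow_two, ← rpow_mul (norm_nonneg _), mul_div_cancel₀ _ two_ne_zero, hP,
      div_rpow (norm_nonneg _) M0.le, mul_div_cancel₀ _ (rpow_pos_of_pos M0 _).ne']
  have hc : ∀ c : ℕ → ℝ, Continuous fun t : ℝ => ‖P n c (Complex.exp (t * Complex.I))‖ ^ 2 := by
    intro c
    have := cont_P n c
    fun_prop
  rw [hI, hI]
  refine mul_lt_mul_of_pos_left ?_ (rpow_pos_of_pos M0 _)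
  have b1 : ∑ k ∈ Icc 1 n, A n k / M = 1 := by rw [← sum_div, div_self M0.ne']
  have b2 : ∑ k ∈ Icc 1 n, |A n k / M| = 1 :=
    (sum_congr rfl fun k hk => abs_of_pos (div_pos (A_pos hk) M0)).trans b1
  set κ := 1 / 10 ^ 9 / (n : ℝ) ^ 2 with hκ
  set s := 1 / 10 ^ 5 / (n : ℝ) ^ 2 with hs
  have κ0 : 0 < κ := by positivity
  have s0 : 0 < s := by positivity
  have κ1 : κ * n ^ 2 = 1 / 10 ^ 9 := div_mul_cancel₀ _ (by positivity)
  have s1 : s * n ^ 2 = 1 / 10 ^ 5 := div_mul_cancel₀ _ (by positivity)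
  have κ2 : κ ≤ 1 / 10 ^ 9 := by nlinarith
  have s2 : s ≤ π := by nlinarith [pi_gt_three]
  have c1 : ∀ t : ℝ, |t| ≤ s → n ^ 4 * t ^ 2 ≤ 1 / 10 ^ 10 := fun t ht => by
    have h : t ^ 2 ≤ s ^ 2 := sq_le_sq.2 (by rwa [abs_of_pos s0])
    calc (n : ℝ) ^ 4 * t ^ 2 ≤ n ^ 4 * s ^ 2 := mul_le_mul_of_nonneg_left h (by positivity)
      _ = (s * n ^ 2) ^ 2 := by ring
      _ = _ := by rw [s1]; norm_num
  have c2 : ∀ t : ℝ, |t| ≤ s →
      1 - κ ≤ ‖P n (fun k => A n k / M) (Complex.exp (t * Complex.I))‖ ^ 2 := fun t ht => by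
    have h := (abs_le.1 (bil n (fun k => A n k / M) (fun k => A n k / M) t)).1
    rw [← sq_eq_re, b1, b2] at h
    have : (n : ℝ) ^ 2 * t ^ 2 ≤ κ :=
      le_of_mul_le_mul_right (by nlinarith [c1 t ht]) (show (0 : ℝ) < n ^ 2 by positivity)
    linarith
  have c3 : ∀ t : ℝ, |t| ≤ π → ‖P n (fun k => A n k / M) (Complex.exp (t * Complex.I))‖ ^ 2 ≤
      1 - min (n ^ 2 * t ^ 2) 1 / 20000 := fun t ht => by
    have h := hdec t ht
    rw [← div_le_iff₀ M0, ← hP] at h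
    have h7 : 0 ≤ min ((n : ℝ) ^ 2 * t ^ 2) 1 := le_min (by positivity) zero_le_one
    nlinarith [norm_nonneg (P n (fun k => A n k / M) (Complex.exp (t * Complex.I)))]
  rcases le_total (n ^ 2 * η) (1 / 10 ^ 6) with h | h
  · have e : ∀ z, P n (fun k => a k / M) z =
        P n (fun k => A n k / M) z + P n (fun k => (a k - A n k) / M) z := fun z => by
      simp only [P, ← sum_add_distrib]
      refine sum_congr rfl fun k _ => ?_
      push_cast
      ring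
    have hN := near_pt (b := fun k => A n k / M) (e := fun k => (a k - A n k) / M) hn b2 b1
      (by simpa only [abs_div, abs_of_pos M0, ← sum_div, div_le_iff₀ M0] using f2)
      (by simpa only [← sum_div, le_div_iff₀ M0] using f3) (by
        rw [← sum_div, div_le_iff₀ M0, sum_sub_distrib]
        linarith [sum_le_sum fun k (_ : k ∈ Icc 1 n) => le_abs_self (a k)]) η0.le h
    simp only [← e] at hN
    refine lap (hc _) (hc _) (fun _ => sq_nonneg _) (fun _ => sq_nonneg _) hQ κ0 (by linarith) s0 s2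
      (B := 18 * n ^ 2 * η) (x := η / 200) (by positivity) (by nlinarith)
      (fun t ht => ⟨c2 t ht, by nlinarith [(hN t).1, c1 t ht]⟩) (fun t ht => ?_) hbig
    obtain ⟨h1, h2⟩ := hN t
    rcases le_total (n ^ 4 * t ^ 2) (1 / 1000) with h3 | h3
    · exact .inl (by nlinarith)
    · refine .inr ⟨?_, h2⟩
      have h4 := c3 t ht
      rcases le_total (n ^ 2 * t ^ 2) 1 with h5 | h5
      · rw [min_eq_left h5] at h4
        have h6 : 10 ^ 6 * κ ≤ n ^ 2 * t ^ 2 :=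
          le_of_mul_le_mul_right (by nlinarith) (show (0 : ℝ) < n ^ 2 by positivity)
        nlinarith [mul_le_mul_of_nonneg_right h (show (0 : ℝ) ≤ n ^ 2 * t ^ 2 by positivity)]
      · rw [min_eq_right h5] at h4
        linarith
  · have h1 : ∀ t : ℝ, ‖P n (fun k => a k / M) (Complex.exp (t * Complex.I))‖ ^ 2 ≤ 1 - 2 * κ := by
      intro t
      have h2 := (norm_P_le n a (Complex.norm_exp_ofReal_mul_I t)).trans f1
      rw [← div_le_iff₀ M0, ← hP] at h2
      have h3 : 250 * κ ≤ η :=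
        le_of_mul_le_mul_right (by nlinarith) (show (0 : ℝ) < n ^ 2 by positivity)
      nlinarith [norm_nonneg (P n (fun k => a k / M) (Complex.exp (t * Complex.I)))]
    exact lap (hc _) (hc _) (fun _ => sq_nonneg _) (fun _ => sq_nonneg _) hQ κ0 (by linarith) s0 s2
      one_pos (mul_one κ).le (fun t ht => ⟨c2 t ht, by linarith [c2 t ht, h1 t]⟩)
      (fun t _ => .inr ⟨h1 t, by
        linarith [h1 t, sq_nonneg ‖P n (fun k => A n k / M) (Complex.exp (t * Complex.I))‖]⟩) hbig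

theorem half {n : ℕ} {a : ℕ → ℝ} {q : ℝ} (hn : 2 ≤ n) (h1 : a 1 = 1)
    (hi : Set.InjOn (P n a) (ball 0 1)) (hw : T n a n ≤ T n a 1)
    (hq : 10 ^ 12 * n ^ 2 * log n ≤ q) : (∀ k ∈ Icc 1 n, a k = A n k) ∨
    ∫ t in -π..π, ‖P n a (Complex.exp (t * Complex.I))‖ ^ q <
      ∫ t in -π..π, ‖P n (A n) (Complex.exp (t * Complex.I))‖ ^ q := by
  obtain ⟨η, η0, η1, f1, f2, f3⟩ := struct hn h1 hi hw
  rcases η0.eq_or_lt with rfl | h
  · refine .inl fun k hk => sub_eq_zero.1 (abs_nonpos_iff.1 ?_)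
    exact (single_le_sum (f := fun k => |a k - A n k|) (fun _ _ => abs_nonneg _) hk).trans
      (by simpa using f2)
  · exact .inr (main_lt hn h η1 f1 f2 f3 hq)

theorem per (n : ℕ) (a : ℕ → ℝ) (q : ℝ) :
    ∫ t in (0 : ℝ)..2 * π, ‖P n a (Complex.exp (t * Complex.I))‖ ^ q =
      ∫ t in -π..π, ‖P n a (Complex.exp (t * Complex.I))‖ ^ q := by
  have h : Function.Periodic (fun t : ℝ => ‖P n a (Complex.exp (t * Complex.I))‖ ^ q) (2 * π) :=
    fun t => by simp [add_mul, Complex.exp_add]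
  have := h.intervalIntegral_add_eq 0 (-π)
  rwa [zero_add, show -π + 2 * π = π by ring] at this

theorem P_flip (n : ℕ) (a : ℕ → ℝ) (z : ℂ) :
    P n (fun k => (-1) ^ (k + 1) * a k) z = -P n a (-z) := by
  simp only [P, ← sum_neg_distrib]
  refine sum_congr rfl fun k _ => ?_
  rw [neg_pow z]
  push_cast
  ring

theorem per_flip (n : ℕ) (a : ℕ → ℝ) (q : ℝ) :
    ∫ t in (0 : ℝ)..2 * π, ‖P n a (Complex.exp (t * Complex.I))‖ ^ q =
      ∫ t in -π..π, ‖P n (fun k => (-1) ^ (k + 1) * a k) (Complex.exp (t * Complex.I))‖ ^ q := by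
  have := intervalIntegral.integral_comp_add_right (a := -π) (b := π)
    (fun t : ℝ => ‖P n a (Complex.exp (t * Complex.I))‖ ^ q) π
  rw [neg_add_cancel, ← two_mul] at this
  rw [← this]
  simp [P_flip, add_mul, Complex.exp_add]

theorem full {n : ℕ} {a : ℕ → ℝ} {q : ℝ} (hn : 2 ≤ n) (h1 : a 1 = 1)
    (hi : Set.InjOn (P n a) (ball 0 1)) (hq : 10 ^ 12 * n ^ 2 * log n ≤ q) :
    (∀ k ∈ Icc 1 n, a k = A n k) ∨ (∀ k ∈ Icc 1 n, a k = (-1) ^ (k + 1) * A n k) ∨
    ∫ t in (0 : ℝ)..2 * π, ‖P n a (Complex.exp (t * Complex.I))‖ ^ q <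
      ∫ t in (0 : ℝ)..2 * π, ‖P n (A n) (Complex.exp (t * Complex.I))‖ ^ q := by
  rw [per n (A n)]
  rcases le_total (T n a n) (T n a 1) with h | h
  · rw [per]
    exact (half hn h1 hi h hq).imp_right .inr
  · have sq : ∀ k : ℕ, (-1 : ℝ) ^ k * (-1) ^ k = 1 := fun k => by rw [← mul_pow]; simp
    have e : ∀ k, sn (n + 1) (k * n) = (-1) ^ (k + 1) * sn (n + 1) (k * 1) := fun k => by
      simpa [mul_comm] using sn_sub_mul (N := n + 1) (k := 1) n.succ_pos (by omega) k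
    rw [per_flip]
    refine .inr ((half (a := fun k => (-1) ^ (k + 1) * a k) hn (by simp [h1]) ?_ ?_ hq).imp_left
      fun h k hk => ?_)
    · intro x hx y hy hxy
      rw [P_flip, P_flip, neg_inj] at hxy
      exact neg_inj.1 (hi (by simpa using hx) (by simpa using hy) hxy)
    · refine le_of_eq_of_le (sum_congr rfl fun k _ => ?_) (h.trans_eq (sum_congr rfl fun k _ => ?_))
        <;> rw [e]
      · linear_combination a k * sn (n + 1) (k * 1) * sq (k + 1)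
      · ring
    · rw [← h k hk, ← mul_assoc, sq, one_mul]

theorem P_eq {n : ℕ} (hn : 1 ≤ n) {a b : ℕ → ℝ} (h1 : b 1 = 1) (h : ∀ k ∈ Icc 2 n, b k = a k) :
    (fun z : ℂ => z + ∑ k ∈ Icc 2 n, (a k : ℂ) * z ^ k) = P n b := by
  funext z
  rw [P, ← add_sum_Ioc_eq_sum_Icc hn, h1, ← Icc_add_one_left_eq_Ioc]
  simp only [Complex.ofReal_one, pow_one, one_mul, add_right_inj]
  exact sum_congr rfl fun k hk => by rw [h k hk]

end Pool.Agent.MP_d3fa2a_an.R
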