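import Mathlib

/-! Trigonometric facts at the nodes `j π / N`. -/

set_option autoImplicit false

open Finset Real

namespace Pool.Agent.MP_d3fa2a_an.R

/-- `sin (k π / N)` -/
noncomputable def sn (N k : ℕ) : ℝ := sin (k * (π / N))

theorem al_pos {N : ℕ} (hN : 0 < N) : 0 < π / N := div_pos pi_pos (by exact_mod_cast hN)

theorem mul_al {N : ℕ} (hN : 0 < N) : (N : ℝ) * (π / N) = π :=
  mul_div_cancel₀ _ (by exact_mod_cast hN.ne')

theorem sn_pos {N k : ℕ} (h1 : 1 ≤ k) (h2 : k < N) : 0 < sn N k := by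
  have hN : 0 < N := by omega
  refine sin_pos_of_pos_of_lt_pi (mul_pos (by exact_mod_cast h1) (al_pos hN)) ?_
  calc (k : ℝ) * (π / N) < N * (π / N) :=
        mul_lt_mul_of_pos_right (by exact_mod_cast h2) (al_pos hN)
    _ = π := mul_al hN

theorem sn_sub_mul {N k : ℕ} (hN : 0 < N) (h : k ≤ N) (j : ℕ) :
    sn N ((N - k) * j) = (-1) ^ (j + 1) * sn N (k * j) := by
  unfold sn
  have e : (((N - k) * j : ℕ) : ℝ) * (π / N) = j * π - ((k * j : ℕ) : ℝ) * (π / N) := by
    push_cast [h]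
    linear_combination (j : ℝ) * mul_al hN
  rw [e, sin_nat_mul_pi_sub, pow_succ]
  ring

theorem sn_sub {N k : ℕ} (hN : 0 < N) (h : k ≤ N) : sn N (N - k) = sn N k := by
  simpa using sn_sub_mul hN h 1

theorem abs_sn_le (N k : ℕ) : |sn N k| ≤ 1 := abs_sin_le_one _

theorem sn_one_le {N : ℕ} (hN : 0 < N) : sn N 1 ≤ π / N := by
  simpa [sn] using sin_le (al_pos hN).le

theorem le_sn {N k : ℕ} (hN : 0 < N) (h : 2 * k ≤ N) : 2 * k / N ≤ sn N k := by
  have hN' : (0 : ℝ) < N := by exact_mod_cast hN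
  have h' : (2 : ℝ) * k ≤ N := by exact_mod_cast h
  have h1 := mul_le_sin (x := k * (π / N)) (by have := al_pos hN; positivity) (by
    rw [← mul_div_assoc, div_le_div_iff₀ hN' two_pos]
    nlinarith [pi_pos])
  refine le_trans (le_of_eq ?_) h1
  field_simp

theorem ratio_anti {x y : ℝ} (hx : 0 ≤ x) (hxy : x ≤ y) (hy : y ≤ π) :
    ∀ k : ℕ, k * y ≤ π + y → sin (k * y) * sin x ≤ sin (k * x) * sin y := by
  have s1 := sin_nonneg_of_nonneg_of_le_pi hx (hxy.trans hy)
  have s2 := sin_nonneg_of_nonneg_of_le_pi (hx.trans hxy) hy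
  intro k
  induction k using Nat.twoStepInduction with
  | zero => simp
  | one => simp [mul_comm]
  | more k ih _ =>
    intro h
    push_cast at h ⊢
    have e : ∀ t : ℝ, sin ((k + 2) * t) = sin (k * t) + 2 * cos ((k + 1) * t) * sin t := fun t => by
      rw [show (k + 2) * t = (k + 1) * t + t by ring, show k * t = (k + 1) * t - t by ring, sin_add,
        sin_sub]
      ring
    have h1 := ih (by linarith)
    have h2 : cos ((k + 1) * y) ≤ cos ((k + 1) * x) :=
      cos_le_cos_of_nonneg_of_le_pi (by positivity) (by linarith)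
        (mul_le_mul_of_nonneg_left hxy (by positivity))
    rw [e, e]
    nlinarith [mul_le_mul_of_nonneg_right h2 (mul_nonneg s1 s2)]

theorem key_half {N k j : ℕ} (hk : 1 ≤ k) (hj : 1 ≤ j) (hk' : 2 * k ≤ N) (hj' : 2 * j ≤ N) :
    |sn N (k * j)| * sn N 1 ≤ sn N k * sn N j := by
  have hN : 0 < N := by omega
  have hN' : (0 : ℝ) < N := by exact_mod_cast hN
  have ha := al_pos hN
  have s1 := (sn_pos (N := N) le_rfl (by omega)).le
  rcases le_or_gt (k * j) N with h | h
  · have h' : (k : ℝ) * j ≤ N := by exact_mod_cast h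
    have h1 : (k : ℝ) * (j * (π / N)) ≤ π := by
      rw [← mul_assoc]
      exact (mul_le_mul_of_nonneg_right h' ha.le).trans (mul_al hN).le
    have hj1 : (1 : ℝ) ≤ j := by exact_mod_cast hj
    have hk1 : (1 : ℝ) ≤ k := by exact_mod_cast hk
    have h2 := ratio_anti (x := π / N) (y := j * (π / N)) ha.le (le_mul_of_one_le_left ha.le hj1)
      ((le_mul_of_one_le_left (by positivity) hk1).trans h1) k
      (h1.trans (le_add_of_nonneg_right (by positivity)))
    unfold sn
    rw [Nat.cast_mul, mul_assoc, abs_of_nonneg (sin_nonneg_of_nonneg_of_le_pi (by positivity) h1),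
      Nat.cast_one, one_mul]
    exact h2
  · have h' : (N : ℝ) ≤ k * j := by exact_mod_cast h.le
    calc |sn N (k * j)| * sn N 1 ≤ 1 * (π / N) :=
          mul_le_mul (abs_sn_le _ _) (sn_one_le hN) s1 zero_le_one
      _ ≤ 2 * k / N * (2 * j / N) := by
          rw [one_mul, div_mul_div_comm, div_le_div_iff₀ hN' (by positivity)]
          nlinarith [mul_le_mul pi_le_four h' hN'.le (by norm_num)]
      _ ≤ _ := mul_le_mul (le_sn hN hk') (le_sn hN hj') (by positivity)
          (sn_pos hk (by omega)).le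

theorem key_sn {N k j : ℕ} (hk : 1 ≤ k) (hj : 1 ≤ j) (hk' : k < N) (hj' : j < N) :
    |sn N (k * j)| * sn N 1 ≤ sn N k * sn N j := by
  have hN : 0 < N := by omega
  have a : ∀ {k j : ℕ}, k ≤ N → |sn N ((N - k) * j)| = |sn N (k * j)| := fun h => by
    rw [sn_sub_mul hN h, abs_mul, abs_pow, abs_neg, abs_one, one_pow, one_mul]
  have b : ∀ {k : ℕ}, 1 ≤ k → 2 * k ≤ N → |sn N (k * j)| * sn N 1 ≤ sn N k * sn N j := by
    intro k hk hk'
    rcases le_or_gt (2 * j) N with h | h
    · exact key_half hk hj hk' h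
    · rw [mul_comm k, ← a hj'.le, ← sn_sub hN hj'.le, mul_comm _ k]
      exact key_half hk (by omega) hk' (by omega)
  rcases le_or_gt (2 * k) N with h | h
  · exact b hk h
  · rw [← a hk'.le, ← sn_sub hN hk'.le]
    exact b (by omega) (by omega)

theorem sn_one_le_sn {N k : ℕ} (hk : 1 ≤ k) (hk' : k < N) : sn N 1 ≤ sn N k := by
  have hN : 0 < N := by omega
  have b : ∀ {k : ℕ}, 1 ≤ k → 2 * k ≤ N → sn N 1 ≤ sn N k := by
    intro k hk hk'
    have ha := al_pos hN
    have h' : (2 : ℝ) * k ≤ N := by exact_mod_cast hk'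
    have h1 : (1 : ℝ) ≤ k := by exact_mod_cast hk
    refine sin_le_sin_of_le_of_le_pi_div_two (by push_cast; linarith [pi_pos]) ?_
      (mul_le_mul_of_nonneg_right (by exact_mod_cast hk) ha.le)
    nlinarith [mul_al hN, mul_le_mul_of_nonneg_right h' ha.le]
  rcases le_or_gt (2 * k) N with h | h
  · exact b hk h
  · rw [← sn_sub hN hk'.le]
    exact b (by omega) (by omega)

/-- a lower bound for the sine in a middle range -/
theorem sn_mid {N k : ℕ} {x : ℝ} (hN : 0 < N) (hx : 0 ≤ x) (h1 : x * N ≤ k)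
    (h2 : k ≤ (1 - x) * N) : sin (x * π) ≤ sn N k := by
  have ha := al_pos hN
  have e := mul_al hN
  have h3 := mul_le_mul_of_nonneg_right h1 ha.le
  have h4 := mul_le_mul_of_nonneg_right h2 ha.le
  rw [mul_assoc, e] at h3 h4
  have h5 : 0 ≤ x * π := by positivity
  unfold sn
  rcases le_total (k * (π / N)) (π / 2) with h | h
  · exact sin_le_sin_of_le_of_le_pi_div_two (by linarith [pi_pos]) h h3
  · rw [← sin_pi_sub (k * (π / N))]
    exact sin_le_sin_of_le_of_le_pi_div_two (by linarith [pi_pos]) (by linarith) (by linarith)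

theorem sum_cos (θ : ℝ) (N : ℕ) :
    2 * sin (θ / 2) * ∑ j ∈ range N, cos (j * θ) = sin (N * θ - θ / 2) + sin (θ / 2) := by
  induction N with
  | zero => simp
  | succ N ih =>
    rw [sum_range_succ, mul_add, ih, show ((N + 1 : ℕ) : ℝ) * θ - θ / 2 = N * θ + θ / 2 by
      push_cast; ring, sin_add, sin_sub]
    ring

theorem sum_cos_node {N m : ℕ} (h1 : 1 ≤ m) (h2 : m < 2 * N) :
    ∑ j ∈ range N, cos (j * (m * (π / N))) = (1 - (-1) ^ m) / 2 := by
  have hN : 0 < N := by omega
  have h := sum_cos (m * (π / N)) N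
  have ha := al_pos hN
  have h2' : (m : ℝ) < 2 * N := by exact_mod_cast h2
  have hs : 0 < sin (m * (π / N) / 2) := by
    refine sin_pos_of_pos_of_lt_pi (by have : (0 : ℝ) < m := by exact_mod_cast h1
                                       positivity) ?_
    nlinarith [mul_al hN, mul_lt_mul_of_pos_right h2' ha]
  rw [mul_left_comm (N : ℝ), mul_al hN, sin_nat_mul_pi_sub] at h
  refine mul_left_cancel₀ hs.ne' ?_
  linear_combination h / 2

theorem orth {n k l : ℕ} (hk : k ∈ Icc 1 n) (hl : l ∈ Icc 1 n) :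
    ∑ j ∈ Icc 1 n, sn (n + 1) (k * j) * sn (n + 1) (l * j) =
      if k = l then ((n : ℝ) + 1) / 2 else 0 := by
  wlog h : l ≤ k generalizing k l
  · rw [sum_congr rfl fun j _ => mul_comm _ _, this hl hk (by omega)]
    simp only [eq_comm]
  rw [mem_Icc] at hk hl
  obtain ⟨m, rfl⟩ := Nat.exists_eq_add_of_le h
  have e : ∑ j ∈ Icc 1 n, sn (n + 1) ((l + m) * j) * sn (n + 1) (l * j) =
      (∑ j ∈ range (n + 1), cos (j * (m * (π / (n + 1 : ℕ)))) -
        ∑ j ∈ range (n + 1), cos (j * ((2 * l + m : ℕ) * (π / (n + 1 : ℕ))))) / 2 := by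
    rw [← sum_sub_distrib, sum_div, range_eq_Ico, sum_eq_sum_Ico_succ_bot (by omega),
      Ico_add_one_right_eq_Icc]
    simp only [Nat.cast_zero, zero_mul, sub_self, zero_div, zero_add]
    refine sum_congr rfl fun j _ => ?_
    unfold sn
    generalize π / (n + 1 : ℕ) = a
    rw [show (j : ℝ) * (m * a) = ((l + m) * j : ℕ) * a - (l * j : ℕ) * a by push_cast; ring,
      show (j : ℝ) * ((2 * l + m : ℕ) * a) = ((l + m) * j : ℕ) * a + (l * j : ℕ) * a by
        push_cast; ring, cos_sub, cos_add]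
    ring
  rw [e, sum_cos_node (m := 2 * l + m) (by omega) (by omega), pow_add, pow_mul]
  rcases Nat.eq_zero_or_pos m with rfl | hm
  · simp
  · rw [sum_cos_node hm (by omega), if_neg (by omega)]
    simp

end Pool.Agent.MP_d3fa2a_an.R
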