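import Pool.Agent.MP_d3fa2a_an.R.Def
import Pool.Agent.MP_d3fa2a_an.R.Car
import Pool.Agent.MP_1a2790_an.Normal

/-! Coefficients of a real univalent polynomial compared with the extremal coefficients. -/

set_option autoImplicit false

open Finset Real Metric
open scoped ComplexConjugate

namespace Pool.Agent.MP_d3fa2a_an.R

theorem sum_Icc_range {M : Type} [AddCommMonoid M] (n : ℕ) (f : ℕ → M) :
    ∑ k ∈ Icc 1 n, f k = ∑ i ∈ range n, f (i + 1) := by
  rw [range_eq_Ico, sum_Ico_add' f 0 n 1, zero_add, Ico_add_one_right_eq_Icc]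

theorem im_nonneg {n : ℕ} {a : ℕ → ℝ} (hn : 1 ≤ n) (h1 : a 1 = 1)
    (hi : Set.InjOn (P n a) (ball 0 1)) {θ : ℝ} (h0 : 0 < θ) (hπ : θ < π) :
    0 ≤ ∑ k ∈ Icc 1 n, a k * sin (k * θ) := by
  by_contra h
  have hs := sin_pos_of_pos_of_lt_pi h0 hπ
  obtain ⟨m, rfl⟩ := Nat.exists_eq_add_of_le' hn
  obtain ⟨r, hr, hg⟩ := intermediate_value_Ioo' zero_le_one
    (f := fun r : ℝ => ∑ i ∈ range (m + 1), a (i + 1) * sin ((i + 1 : ℕ) * θ) * r ^ i)
    (by fun_prop) (show (0 : ℝ) ∈ _ by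
      rw [sum_Icc_range] at h
      refine ⟨by simpa using h, ?_⟩
      simpa [sum_range_succ', h1] using hs)
  have hz : ‖r * Complex.exp (θ * Complex.I)‖ < 1 := by
    rw [norm_mul, Complex.norm_exp_ofReal_mul_I, mul_one, Complex.norm_real,
      Real.norm_of_nonneg hr.1.le]
    exact hr.2
  have e : (P (m + 1) a (r * Complex.exp (θ * Complex.I))).im = 0 := by
    rw [P, sum_Icc_range, Complex.im_sum, ← mul_zero r, ← hg, mul_sum]
    refine sum_congr rfl fun i _ => ?_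
    rw [mul_pow, ← Complex.exp_nat_mul, ← Complex.ofReal_pow, Complex.im_ofReal_mul,
      Complex.im_ofReal_mul, ← mul_assoc ((i + 1 : ℕ) : ℂ), ← Complex.ofReal_natCast,
      ← Complex.ofReal_mul, Complex.exp_ofReal_mul_I_im]
    ring
  rw [← Complex.conj_eq_iff_im, conj_P] at e
  have := hi (mem_ball_zero_iff.2 (by rwa [Complex.norm_conj])) (mem_ball_zero_iff.2 hz) e
  rw [Complex.conj_eq_iff_im, Complex.im_ofReal_mul, Complex.exp_ofReal_mul_I_im] at this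
  exact (mul_pos hr.1 hs).ne' this

/-- the sine sum at the node `j π / (n + 1)` -/
noncomputable def T (n : ℕ) (a : ℕ → ℝ) (j : ℕ) : ℝ := ∑ k ∈ Icc 1 n, a k * sn (n + 1) (k * j)

theorem T_nonneg {n : ℕ} {a : ℕ → ℝ} (h1 : a 1 = 1) (hi : Set.InjOn (P n a) (ball 0 1)) {j : ℕ}
    (hj : j ∈ Icc 1 n) : 0 ≤ T n a j := by
  rw [mem_Icc] at hj
  have ha := al_pos n.succ_pos
  have := im_nonneg (hj.1.trans hj.2) h1 hi (θ := j * (π / (n + 1 : ℕ)))
    (mul_pos (by exact_mod_cast hj.1) ha)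
    ((mul_lt_mul_of_pos_right (by exact_mod_cast (by omega)) ha).trans_eq (mul_al n.succ_pos))
  simpa only [T, sn, Nat.cast_mul, mul_assoc] using this

theorem expand {n : ℕ} (a : ℕ → ℝ) {k : ℕ} (hk : k ∈ Icc 1 n) :
    ∑ j ∈ Icc 1 n, 2 / (n + 1) * T n a j * sn (n + 1) (k * j) = a k := by
  have e : ∀ l ∈ Icc 1 n, ∑ j ∈ Icc 1 n, 2 / ((n : ℝ) + 1) * (a l * sn (n + 1) (l * j)) *
      sn (n + 1) (k * j) = if k = l then a l else 0 := fun l hl => by
    rw [sum_congr rfl (g := fun j => 2 / ((n : ℝ) + 1) * a l *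
      (sn (n + 1) (k * j) * sn (n + 1) (l * j))) fun j _ => by ring, ← mul_sum, orth hk hl]
    split_ifs
    · field_simp
    · simp
  simp only [T, mul_sum, sum_mul]
  rw [sum_comm, sum_congr rfl e, sum_ite_eq, if_pos hk]

theorem expand' {n : ℕ} (a : ℕ → ℝ) {k : ℕ} (hk : k ∈ Icc 1 n) (ε : ℝ) :
    ∑ j ∈ Icc 1 n, (1 + ε * (-1) ^ (j + 1)) / 2 * (2 / (n + 1) * T n a j) * sn (n + 1) (k * j) =
      (a k + ε * a (n + 1 - k)) / 2 := by
  have hk' := mem_Icc.1 hk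
  rw [← expand a hk, ← expand (n := n) a (k := n + 1 - k) (mem_Icc.2 (by omega)), mul_sum,
    ← sum_add_distrib, sum_div]
  refine sum_congr rfl fun j _ => ?_
  rw [sn_sub_mul n.succ_pos (by omega)]
  ring

theorem mix {N k : ℕ} {u : ℕ → ℝ} {s : Finset ℕ} {c : ℝ} (hu : ∀ j ∈ s, 0 ≤ u j)
    (h : ∀ j ∈ s, |sn N (k * j)| ≤ c * sn N j) :
    |∑ j ∈ s, u j * sn N (k * j)| ≤ c * ∑ j ∈ s, u j * sn N j := by
  rw [mul_sum]
  refine (abs_sum_le_sum_abs _ _).trans (sum_le_sum fun j hj => ?_)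
  rw [abs_mul, abs_of_nonneg (hu j hj), mul_left_comm]
  exact mul_le_mul_of_nonneg_left (h j hj) (hu j hj)

theorem key_sg {n k j : ℕ} (hk : k ∈ Icc 1 n) (hj : j ∈ Icc 1 n) :
    |sn (n + 1) (k * j)| ≤ sg (n + 1) k * sn (n + 1) j := by
  rw [mem_Icc] at hk hj
  rw [sg, div_mul_eq_mul_div, le_div_iff₀ (sn_pos le_rfl (by omega))]
  exact key_sn hk.1 hj.1 (by omega) (by omega)

theorem sn_third {N k : ℕ} (hN : 0 < N) (h1 : 3 * N ≤ 10 * k) (h2 : 10 * k ≤ 7 * N) :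
    4 / 5 ≤ sn N k := by
  have h1' : (3 : ℝ) * N ≤ 10 * k := by exact_mod_cast h1
  have h2' : (10 : ℝ) * k ≤ 7 * N := by exact_mod_cast h2
  refine le_trans ?_ (sn_mid (x := 3 / 10) hN (by norm_num) (by linarith) (by linarith))
  rw [← cos_pi_div_two_sub]
  refine le_trans ?_ one_sub_sq_div_two_le_cos
  nlinarith [pi_lt_d2, pi_pos]

theorem key_mid {n k j : ℕ} (h1 : 3 * (n + 1) ≤ 10 * k) (h2 : 10 * k ≤ 7 * (n + 1)) (j1 : 2 ≤ j)
    (j2 : j < n) : |sn (n + 1) (k * j)| ≤ 19 / 20 * sg (n + 1) k * sn (n + 1) j := by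
  have s1 := sn_pos (N := n + 1) le_rfl (by omega)
  have s2 := sn_third n.succ_pos h1 h2
  have n0 : (0 : ℝ) < (n + 1 : ℕ) := by positivity
  have n4 : (4 : ℝ) ≤ (n + 1 : ℕ) := by exact_mod_cast (by omega)
  have s3 := sn_mid (N := n + 1) (k := j) (x := 2 / (n + 1 : ℕ)) n.succ_pos (by positivity)
    (by rw [div_mul_cancel₀ _ n0.ne']; exact_mod_cast j1) (by
      rw [sub_mul, div_mul_cancel₀ _ n0.ne', one_mul, le_sub_iff_add_le]
      exact_mod_cast (by omega))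
  have s4 : 69 / 100 ≤ cos (π / (n + 1 : ℕ)) := by
    refine le_trans ?_ one_sub_sq_div_two_le_cos
    have : π / (n + 1 : ℕ) ≤ π / 4 := div_le_div_of_nonneg_left pi_pos.le four_pos n4
    have h3 : π / (n + 1 : ℕ) ≤ 0.7854 := by linarith [pi_lt_d4]
    have h4 : 0 < π / (n + 1 : ℕ) := al_pos n.succ_pos
    nlinarith
  rw [div_mul_eq_mul_div, mul_div_assoc, sin_two_mul] at s3
  have e : sn (n + 1) 1 = sin (π / (n + 1 : ℕ)) := by simp [sn]
  rw [← e] at s3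
  refine (abs_sn_le _ _).trans ?_
  rw [sg, ← mul_div_assoc, div_mul_eq_mul_div, le_div_iff₀ s1]
  have s5 : 138 / 100 * sn (n + 1) 1 ≤ sn (n + 1) j := by nlinarith
  nlinarith [mul_le_mul s2 s5 (by positivity) (by positivity)]

theorem mix_mid {n k : ℕ} {u : ℕ → ℝ} {W w : ℝ} (hn : 2 ≤ n) (hu : ∀ j ∈ Icc 1 n, 0 ≤ u j)
    (hW : ∑ j ∈ Icc 1 n, u j * sn (n + 1) j ≤ W) (w1 : u 1 * sn (n + 1) 1 ≤ w)
    (wn : u n * sn (n + 1) 1 ≤ w) (h1 : 3 * (n + 1) ≤ 10 * (2 * k))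
    (h2 : 10 * (2 * k) ≤ 7 * (n + 1)) :
    |∑ j ∈ Icc 1 n, u j * sn (n + 1) (2 * k * j)| ≤ sg (n + 1) (2 * k) * (W - (W - w) / 20) := by
  have m1 : 1 ∈ Icc 1 n := mem_Icc.2 (by omega)
  have m2 : n ∈ (Icc 1 n).erase 1 := mem_erase.2 ⟨by omega, mem_Icc.2 (by omega)⟩
  have s1 := sn_pos (N := n + 1) le_rfl (by omega)
  have s2 := sg_pos (N := n + 1) (k := 2 * k) (by omega) (by omega)
  have h := mix (N := n + 1) (k := 2 * k) (u := u) (s := ((Icc 1 n).erase 1).erase n)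
    (fun j hj => hu j (mem_of_mem_erase (mem_of_mem_erase hj))) fun j hj => by
      simp only [mem_erase, mem_Icc] at hj
      exact key_mid h1 h2 (by omega) (by omega)
  have e1 : sn (n + 1) n = sn (n + 1) 1 := by simpa using sn_sub (N := n + 1) (k := 1)
  have e2 : sn (n + 1) (2 * k * n) = -(sg (n + 1) (2 * k) * sn (n + 1) 1) := by
    have := sn_sub_mul (N := n + 1) (k := 1) n.succ_pos (by omega) (2 * k)
    rw [sg, div_mul_cancel₀ _ s1.ne', mul_comm _ n]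
    simpa [pow_succ, pow_mul] using this
  have e3 : sn (n + 1) (2 * k * 1) = sg (n + 1) (2 * k) * sn (n + 1) 1 := by
    rw [sg, div_mul_cancel₀ _ s1.ne', mul_one]
  rw [← add_sum_erase _ _ m1, ← add_sum_erase _ _ m2] at hW ⊢
  rw [e1] at hW
  rw [e2, e3]
  have x0 := mul_nonneg (hu 1 m1) s1.le
  have y0 := mul_nonneg (hu n (mem_of_mem_erase m2)) s1.le
  rw [abs_le] at h ⊢
  constructor <;> nlinarith [mul_le_mul_of_nonneg_left hW s2.le, mul_nonneg s2.le x0,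
    mul_nonneg s2.le y0, mul_le_mul_of_nonneg_left w1 s2.le, mul_le_mul_of_nonneg_left wn s2.le]

theorem rev_bound {n : ℕ} {a : ℕ → ℝ} (hn : 1 ≤ n) (h1 : a 1 = 1)
    (hi : Set.InjOn (P n a) (ball 0 1)) : |n * a n| ≤ 1 ∧ ∀ k ∈ Icc 1 n,
      |k * a k - (n + 1 - k) * a (n + 1 - k)| ≤ 2 * (1 - n * a n) * (n * ∑ l ∈ Icc 1 n, |a l|) := by
  obtain ⟨m, rfl⟩ := Nat.exists_eq_add_of_le' hn
  obtain ⟨b1, b2⟩ := coeff_rev (m := m) (b := fun i => (i + 1 : ℕ) * a (i + 1)) (by simp [h1])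
    fun z hz => by
      have := MP_1a2790_an.deriv_ne_zero_of_injOn isOpen_ball (diff_P _ a).differentiableOn hi
        (mem_ball_zero_iff.2 hz)
      have h : HasDerivAt (P (m + 1) a) _ z :=
        HasDerivAt.fun_sum fun k _ => (hasDerivAt_pow k z).const_mul (a k : ℂ)
      rw [h.deriv, sum_Icc_range] at this
      convert this using 2 with i
      push_cast
      ring
  refine ⟨b1, fun k hk => ?_⟩
  rw [mem_Icc] at hk
  obtain ⟨i, rfl⟩ := Nat.exists_eq_add_of_le' hk.1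
  have hi : i ≤ m := by omega
  have := b2 i hi
  rw [show m + 1 + 1 - (i + 1) = m - i + 1 by omega]
  push_cast [hi] at this b1 ⊢
  rw [show (m : ℝ) + 1 + 1 - (i + 1) = m - i + 1 by ring]
  refine this.trans (mul_le_mul_of_nonneg_left ?_ (by linarith [le_abs_self ((m + 1) * a (m + 1))]))
  rw [sum_Icc_range, mul_sum]
  refine sum_le_sum fun l hl => ?_
  rw [abs_mul, abs_of_nonneg (by positivity)]
  exact mul_le_mul_of_nonneg_right (by exact_mod_cast mem_range.1 hl) (abs_nonneg _)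

theorem sum_sg_le {n : ℕ} (hn : 1 ≤ n) : sn (n + 1) 1 * ∑ k ∈ Icc 1 n, A n k ≤ (n + 1) / 2 := by
  have s1 := sn_pos (N := n + 1) le_rfl (by omega)
  have n0 : (0 : ℝ) < n := by exact_mod_cast hn
  have h : sn (n + 1) 1 * ∑ k ∈ Icc 1 n, sg (n + 1) k ≤ n := by
    rw [mul_sum]
    refine (sum_le_card_nsmul _ _ 1 fun k _ => ?_).trans (by simp)
    rw [sg, mul_div_cancel₀ _ s1.ne']
    exact sin_le_one _
  rw [sum_A, mul_left_comm]
  refine (mul_le_mul_of_nonneg_left h (by positivity)).trans (le_of_eq ?_)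
  field_simp

theorem struct {n : ℕ} {a : ℕ → ℝ} (hn : 2 ≤ n) (h1 : a 1 = 1)
    (hi : Set.InjOn (P n a) (ball 0 1)) (hw : T n a n ≤ T n a 1) :
    ∃ η : ℝ, 0 ≤ η ∧ η ≤ 1 ∧ ∑ k ∈ Icc 1 n, |a k| ≤ (1 - η / 125) * ∑ k ∈ Icc 1 n, A n k ∧
      ∑ k ∈ Icc 1 n, |a k - A n k| ≤ 6 * n ^ 2 * η * ∑ k ∈ Icc 1 n, A n k ∧
      -4 * η * ∑ k ∈ Icc 1 n, A n k ≤ ∑ k ∈ Icc 1 n, (a k - A n k) := by
  obtain ⟨r1, r2⟩ := rev_bound (by omega) h1 hi
  have n2 : (2 : ℝ) ≤ n := by exact_mod_cast hn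
  have m1 : 1 ∈ Icc 1 n := mem_Icc.2 (by omega)
  have mn : n ∈ Icc 1 n := mem_Icc.2 (by omega)
  have s1 := sn_pos (N := n + 1) le_rfl (by omega)
  have hM := sum_A n
  have hM' := sum_sg_le (n := n) (by omega)
  set M := ∑ k ∈ Icc 1 n, A n k
  set W := ((n : ℝ) + 1) / (2 * n) with hW
  have W1 : W * (2 * n) = n + 1 := div_mul_cancel₀ _ (by positivity)
  have W2 : 1 / 2 ≤ W := by nlinarith
  have W3 : W ≤ 1 := by nlinarith
  have u0 : ∀ j ∈ Icc 1 n, 0 ≤ 2 / ((n : ℝ) + 1) * T n a j := fun j hj =>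
    mul_nonneg (by positivity) (T_nonneg h1 hi hj)
  have c0 : ∀ ε : ℝ, ε = 1 ∨ ε = -1 → ∀ j : ℕ, 0 ≤ (1 + ε * (-1) ^ j) / 2 ∧
      (1 + ε * (-1) ^ j) / 2 ≤ 1 := by
    rintro ε (rfl | rfl) j <;> rcases neg_one_pow_eq_or ℝ j with h | h <;> norm_num [h]
  have v0 : ∀ ε : ℝ, ε = 1 ∨ ε = -1 → ∀ j ∈ Icc 1 n,
      0 ≤ (1 + ε * (-1) ^ (j + 1)) / 2 * (2 / ((n : ℝ) + 1) * T n a j) := fun ε h j hj =>
    mul_nonneg (c0 ε h _).1 (u0 j hj)
  have tot : ∀ ε : ℝ, ∑ j ∈ Icc 1 n, (1 + ε * (-1) ^ (j + 1)) / 2 *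
      (2 / ((n : ℝ) + 1) * T n a j) * sn (n + 1) j = (1 + ε * a n) / 2 := fun ε => by
    simpa [h1] using expand' a m1 ε
  have tW : ∀ ε : ℝ, ε = 1 ∨ ε = -1 → (1 + ε * a n) / 2 ≤ W := by
    rw [abs_le] at r1
    rintro ε (rfl | rfl) <;> nlinarith
  set w := 2 / ((n : ℝ) + 1) * T n a 1 * sn (n + 1) 1 with hw'
  have w0 : 0 ≤ w := mul_nonneg (u0 1 m1) s1.le
  have odd : ∀ k ∈ Icc 1 n, |(a k + a (n + 1 - k)) / 2 - w * sg (n + 1) k| ≤
      sg (n + 1) k * ((1 + a n) / 2 - w) := fun k hk => by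
    have h := mix (s := (Icc 1 n).erase 1) (fun j hj => v0 1 (.inl rfl) j (mem_of_mem_erase hj))
      fun j hj => key_sg hk (mem_of_mem_erase hj)
    have e1 := expand' a hk 1
    have e2 := tot 1
    rw [← add_sum_erase _ _ m1] at e1 e2
    have e3 : sn (n + 1) (k * 1) = sg (n + 1) k * sn (n + 1) 1 := by
      rw [sg, div_mul_cancel₀ _ s1.ne', mul_one]
    rw [e3] at e1
    convert h using 2
    · linear_combination -e1
    · linear_combination -e2
  have w1 : w ≤ (1 + a n) / 2 := by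
    have := (abs_nonneg _).trans (odd 1 m1)
    exact sub_nonneg.1 (nonneg_of_mul_nonneg_right this (sg_pos le_rfl (by omega)))
  have t1 := tW 1 (.inl rfl)
  have odd' : ∀ k ∈ Icc 1 n, |(a k + a (n + 1 - k)) / 2 - W * sg (n + 1) k| ≤
      2 * (W - w) * sg (n + 1) k := fun k hk => by
    have h := abs_le.1 (odd k hk)
    have s := sg_pos (N := n + 1) (mem_Icc.1 hk).1 (Nat.lt_succ_of_le (mem_Icc.1 hk).2)
    rw [abs_le]
    constructor <;> nlinarith
  have mx : ∀ x y c : ℝ, |(x + 1 * y) / 2| ≤ c → |(x + -1 * y) / 2| ≤ c → (|x| + |y|) / 2 ≤ c := by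
    intro x y c h1 h2
    rw [abs_le] at h1 h2
    rcases abs_cases x with h | h <;> rcases abs_cases y with h' | h' <;> linarith
  have all : ∀ k ∈ Icc 1 n, (|a k| + |a (n + 1 - k)|) / 2 ≤ sg (n + 1) k * W := fun k hk => by
    have : ∀ ε : ℝ, ε = 1 ∨ ε = -1 → |(a k + ε * a (n + 1 - k)) / 2| ≤ sg (n + 1) k * W := by
      intro ε h
      rw [← expand' a hk]
      refine (mix (v0 ε h) fun j hj => key_sg hk hj).trans (mul_le_mul_of_nonneg_left
        ((tot ε).le.trans (tW ε h)) (sg_pos (mem_Icc.1 hk).1 (by have := mem_Icc.1 hk; omega)).le)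
    exact mx _ _ _ (this _ (.inl rfl)) (this _ (.inr rfl))
  have mid : ∀ k, 3 * (n + 1) ≤ 10 * (2 * k) → 10 * (2 * k) ≤ 7 * (n + 1) →
      (|a (2 * k)| + |a (n + 1 - 2 * k)|) / 2 ≤ sg (n + 1) (2 * k) * (W - (W - w) / 20) := by
    intro k k1 k2
    have : ∀ ε : ℝ, ε = 1 ∨ ε = -1 → |(a (2 * k) + ε * a (n + 1 - 2 * k)) / 2| ≤
        sg (n + 1) (2 * k) * (W - (W - w) / 20) := by
      intro ε h
      rw [← expand' a (mem_Icc.2 (by omega))]
      refine mix_mid hn (v0 ε h) ((tot ε).le.trans (tW ε h)) (mul_le_mul_of_nonneg_right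
        (mul_le_of_le_one_left (u0 1 m1) (c0 ε h _).2) s1.le) (mul_le_mul_of_nonneg_right
        ((mul_le_of_le_one_left (u0 n mn) (c0 ε h _).2).trans
          (mul_le_mul_of_nonneg_left hw (by positivity))) s1.le) k1 k2
    exact mx _ _ _ (this _ (.inl rfl)) (this _ (.inr rfl))
  have η0 : 0 ≤ W - w := by linarith
  have M0 : 0 < M := sum_pos (fun k hk => A_pos hk) ⟨1, m1⟩
  have F1 : ∑ k ∈ Icc 1 n, |a k| ≤ (1 - (W - w) / 125) * M := by
    set K := (range ((n + 10) / 10)).image fun i => 2 * ((3 * n + 22) / 20 + i) with hK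
    have k1 : ∀ k ∈ K, ∃ j, k = 2 * j ∧ 3 * (n + 1) ≤ 10 * (2 * j) ∧ 10 * (2 * j) ≤ 7 * (n + 1) := by
      simp only [hK, mem_image, mem_range]
      rintro _ ⟨i, hi, rfl⟩
      refine ⟨_, rfl, by omega, ?_⟩
      rcases le_or_gt n 5 with h | h
      · have : (3 * n + 22) / 20 ≤ 1 := by omega
        have : i = 0 := by omega
        omega
      · rcases le_or_gt n 7 with h | h <;> omega
    have k2 : ((n : ℝ) + 1) / 10 ≤ K.card := by
      rw [hK, card_image_of_injective _ fun i j h => by simpa using h, card_range,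
        div_le_iff₀ (by norm_num)]
      exact_mod_cast (by omega)
    have k3 := card_nsmul_le_sum K (fun k => sg (n + 1) k * W - (|a k| + |a (n + 1 - k)|) / 2)
      ((W - w) / 25 / sn (n + 1) 1) fun k hk => by
        obtain ⟨j, rfl, j1, j2⟩ := k1 k hk
        have h2 := mid j j1 j2
        have h3 : 4 / 5 / sn (n + 1) 1 ≤ sg (n + 1) (2 * j) :=
          div_le_div_of_nonneg_right (sn_third n.succ_pos j1 j2) s1.le
        have h4 := mul_le_mul_of_nonneg_left h3 η0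
        rw [show (W - w) / 25 / sn (n + 1) 1 = (W - w) * (4 / 5 / sn (n + 1) 1) / 20 by ring]
        linarith
    have k4 := sum_le_sum_of_subset_of_nonneg (s := K) (t := Icc 1 n)
      (f := fun k => sg (n + 1) k * W - (|a k| + |a (n + 1 - k)|) / 2) (fun k hk => by
        obtain ⟨j, rfl, j1, j2⟩ := k1 k hk
        exact mem_Icc.2 (by omega)) fun k hk _ => sub_nonneg.2 (all k hk)
    replace k4 := k3.trans k4
    rw [sum_sub_distrib, ← sum_mul, ← sum_div, sum_add_distrib, refl_sum n fun k => |a k|,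
      nsmul_eq_mul, mul_comm _ W, ← hM] at k4
    have k5 : (W - w) / 125 * M ≤ K.card * ((W - w) / 25 / sn (n + 1) 1) := by
      rw [← mul_div_assoc, le_div_iff₀ s1]
      nlinarith [mul_le_mul_of_nonneg_left hM' η0, mul_le_mul_of_nonneg_left k2 η0]
    linarith
  have sgM : ∑ k ∈ Icc 1 n, sg (n + 1) k ≤ 2 * M := by
    have : 0 ≤ ∑ k ∈ Icc 1 n, sg (n + 1) k :=
      sum_nonneg fun k hk => (sg_pos (mem_Icc.1 hk).1 (Nat.lt_succ_of_le (mem_Icc.1 hk).2)).le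
    nlinarith
  refine ⟨W - w, η0, by linarith, F1, ?_, ?_⟩
  · have h2 : 2 * (1 - n * a n) * (n * ∑ l ∈ Icc 1 n, |a l|) ≤ 4 * n ^ 2 * (W - w) * M := by
      have h3 : 1 - n * a n ≤ 2 * n * (W - w) := by nlinarith
      have h4 : ∑ l ∈ Icc 1 n, |a l| ≤ M := F1.trans (by nlinarith)
      have := mul_le_mul h3 h4 (sum_nonneg fun _ _ => abs_nonneg _) (by positivity)
      nlinarith
    have h5 : ∀ k ∈ Icc 1 n, |a k - A n k| ≤
        4 * n * (W - w) * M + 4 * (W - w) * sg (n + 1) k := fun k hk => by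
      have k1 : (1 : ℝ) ≤ k := by exact_mod_cast (mem_Icc.1 hk).1
      have k2 : (k : ℝ) ≤ n := by exact_mod_cast (mem_Icc.1 hk).2
      have s := sg_pos (N := n + 1) (mem_Icc.1 hk).1 (Nat.lt_succ_of_le (mem_Icc.1 hk).2)
      have e : (n + 1) * (a k - A n k) = (k * a k - (n + 1 - k) * a (n + 1 - k)) +
          2 * (n + 1 - k) * ((a k + a (n + 1 - k)) / 2 - W * sg (n + 1) k) := by
        simp only [A, hW]
        field_simp
        ring
      have h7 : |2 * ((n : ℝ) + 1 - k)| ≤ 2 * (n + 1) := abs_le.2 ⟨by linarith, by linarith⟩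
      have h6 := (abs_add_le _ _).trans (add_le_add ((r2 k hk).trans h2) ((abs_mul _ _).le.trans
        (mul_le_mul h7 (odd' k hk) (abs_nonneg _) (by positivity))))
      rw [← e, abs_mul, abs_of_pos (by positivity)] at h6
      refine le_of_mul_le_mul_left (h6.trans ?_) (show (0 : ℝ) < n + 1 by positivity)
      nlinarith [mul_nonneg (mul_nonneg η0 M0.le) (zero_le_two.trans n2)]
    refine (sum_le_sum h5).trans ?_
    rw [sum_add_distrib, sum_const, ← mul_sum, Nat.card_Icc, add_tsub_cancel_right, nsmul_eq_mul]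
    nlinarith [mul_le_mul_of_nonneg_left sgM η0,
      mul_nonneg (mul_nonneg η0 M0.le) (show (0 : ℝ) ≤ n ^ 2 - 4 by nlinarith)]
  · have h2 := sum_le_sum fun k hk => (abs_le.1 (odd' k hk)).1
    rw [sum_neg_distrib, sum_sub_distrib, ← mul_sum, ← mul_sum, ← sum_div, sum_add_distrib,
      refl_sum n a, ← hM] at h2
    rw [sum_sub_distrib]
    nlinarith [mul_le_mul_of_nonneg_left sgM η0]

end Pool.Agent.MP_d3fa2a_an.R
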